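import Mathlib
import Pool.Agent.W66.GE

set_option autoImplicit false

/-!
# The integer parts of `x` and `lam x`: the rough parts are rarely both prime

Let `lam ≥ 1` satisfy `1 ≤ |a - b lam| A (a + b)` for all positive integers `a`, `b`. For `t` in an interval
of length one, the `p`-rough parts of the largest integers below `exp t * α ^ p` and `lam * exp t * α ^ p`
are both prime with a probability `O((log p / p) ^ 2)`.
-/

namespace Pool.Agent.Helper523_NSW

open Finset MeasureTheory Filter Topology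
open Pool.Agent.W66 (no_mid_prime NN_bounds exp_small large_smooth_count)
open Pool.Agent.W66X (ysh measurable_ysh pert8 exp_ysh exp_consts)
open Pool.Agent.H305R2 (roughPart NN ff measurable_NN measurable_ff ff_nonneg ff_le_one ZZ ZZ_nonneg
  ZZ_le_exp integral_ind integral_ind_le log_nat_tendsto)
open Pool.Agent.H447R2.ML (Sh sh_of)
open Pool.Agent.W66V

open Classical in
/-- the sieve bound in one window -/
theorem two_window {α lam A : ℝ} (hα : 1 < α) (hlam : 1 ≤ lam) (hA : 1 ≤ A)
    (hdio : ∀ a b : ℕ, 1 ≤ a → 1 ≤ b → 1 ≤ |(a : ℝ) - b * lam| * (A * (a + b)))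
    (b0 : ℝ) : ∃ K : ℝ, 0 < K ∧ ∀ᶠ p : ℕ in atTop, ∀ Y : ℝ,
      Real.log α * p + (b0 - 1 / 2) ≤ Y →
      ∫ y in Set.Ioc Y (Y + 1), (if good α p y ∧ good α p (Real.log (lam * Real.exp y)) then (1 : ℝ) else 0) ≤
        K * (Real.log p / p) ^ 2 := by
  have hα0 : 0 < α := by linarith
  set L := Real.log α with hL
  have hLpos : 0 < L := Real.log_pos hα
  obtain ⟨C1, hC1, hrat⟩ := ratio_primorial
  obtain ⟨P1, hP1⟩ := eventually_atTop.1 hrat
  have hsm := exp_small (c := 17 * L / 64) (by positivity)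
  have hlarge : ∀ᶠ p : ℕ in atTop, (|b0| + 4) * 64 / (47 * L) < p :=
    tendsto_natCast_atTop_atTop.eventually_gt_atTop _
  set a := (Z32 + 2) ^ 2 * Real.exp (-(b0 - 1 / 2) / 2) with ha
  have hZ0 := Z32_nonneg
  have ha0 : 0 < a := by positivity
  have hsA : 0 ≤ Real.sqrt A := Real.sqrt_nonneg A
  refine ⟨4 * (256 * C1 / L) ^ 2 + Real.sqrt A * a, by positivity, ?_⟩
  filter_upwards [hsm, hlarge, eventually_ge_atTop P1, eventually_ge_atTop 2]
    with p hsmp hpl hpP1 hp2 Y hY
  have hp2' : (2 : ℝ) ≤ p := by exact_mod_cast hp2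
  have hp0 : (0 : ℝ) < p := by linarith
  have hb0abs := neg_abs_le b0
  have hb0abs' := le_abs_self b0
  have hbn := abs_nonneg b0
  rw [div_lt_iff₀ (by positivity)] at hpl
  obtain ⟨M, hM0, hMl, hMr⟩ := hP1 p hpP1
  have hlam0 : 0 < lam := by linarith
  have hY0 : 0 ≤ Y := by
    have : (|b0| + 4) * 64 < p * (47 * L) := hpl
    have h1 : 0 < L * p := by positivity
    linarith
  have hX1 : 1 ≤ Real.exp Y := Real.one_le_exp hY0
  -- the sieve level
  set R := ⌊Real.exp (L * p / 64)⌋₊ with hR
  have hexp1 : 1 ≤ Real.exp (L * p / 64) := Real.one_le_exp (by positivity)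
  have hR1 : 1 ≤ R := by rw [hR, Nat.one_le_floor_iff]; exact hexp1
  have hRle : (R : ℝ) ≤ Real.exp (L * p / 64) := Nat.floor_le (Real.exp_pos _).le
  have hRgt : Real.exp (L * p / 64) ≤ R + 1 := (Nat.lt_floor_add_one _).le
  set ε := (((R ^ 2 : ℕ) : ℝ) * (Z32 + 2)) ^ 2 *
      Real.sqrt (A * ((R ^ 2 : ℕ) : ℝ) ^ 3 / Real.exp Y) with hε
  have hε0 : 0 ≤ ε := by positivity
  set f : ℝ → ℝ := fun y => if good α p y ∧ good α p (Real.log (lam * Real.exp y)) then (1 : ℝ) else 0 with hf
  have hmeas : Measurable f := by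
    refine Measurable.ite ?_ measurable_const measurable_const
    refine (measurableSet_good α p).inter ?_
    have h1 : Measurable (fun y : ℝ => Real.log (lam * Real.exp y)) :=
      Real.measurable_log.comp (Real.measurable_exp.const_mul _)
    exact h1 (measurableSet_good α p)
  obtain ⟨J, hJ0, hJ1, hJ2⟩ := joint_sift_log (R := R) (M := M) hR1 hM0 (ε := ε) (Y := Y) hε0
    (ψ := fun x => lam * x + 0) (by fun_prop)
    (fun D E hD hD2 hE hE2 => corr_lin (Q := R ^ 2) (A := A) (β := lam) (κ := 0) (X := Real.exp Y)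
      (Nat.one_le_pow _ _ hR1) hA hlam hX1 hdio hD hD2 hE hE2)
    (f := f)
    (by
      refine Measure.integrableOn_of_bounded (M := 1) (by simp) hmeas.aestronglyMeasurable ?_
      refine Eventually.of_forall fun y => ?_
      simp only [hf]
      split_ifs <;> simp)
    (fun y _ => by simp only [hf]; split_ifs <;> norm_num)
    (by
      intro y hy hfy
      have hgd : good α p y ∧ good α p (Real.log (lam * Real.exp y)) := by
        by_contra hc
        simp only [hf] at hfy
        rw [if_neg hc] at hfy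
        exact lt_irrefl _ hfy
      obtain ⟨⟨g1, g2⟩, g3, g4⟩ := hgd
      have hyY : Real.exp Y < Real.exp y := Real.exp_lt_exp.2 hy.1
      have hψ0 : 0 < lam * Real.exp y := by positivity
      obtain ⟨n1, n2⟩ := NN_bounds y
      obtain ⟨n3, n4⟩ := NN_bounds (Real.log (lam * Real.exp y))
      rw [Real.exp_log hψ0] at n3 n4
      refine ⟨NN y, NN (Real.log (lam * Real.exp y)), n1, n2, ?_, ?_, fun l hl hlR hlM => ?_⟩
      · show (NN (Real.log (lam * Real.exp y)) : ℝ) < lam * Real.exp y + 0
        rw [add_zero]; exact n3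
      · show lam * Real.exp y + 0 ≤ (NN (Real.log (lam * Real.exp y)) : ℝ) + 1
        rw [add_zero]; exact n4
      have hql := hMl l hl hlM
      have hlz : (l : ℝ) ≤ Real.exp (L * p / 64) := by
        have : (l : ℝ) ≤ R := by exact_mod_cast hlR
        linarith
      have h1 := size_exp (u := L * p / 64 + L * p / 4) (v := Y) (by positivity) (by linarith)
      have hle : Real.exp y ≤ lam * Real.exp y := by
        have := Real.exp_pos y
        nlinarith
      constructor
      · refine no_mid_prime g1 g2 ?_ hl hql hlz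
        rw [← Real.exp_add]
        linarith [Real.exp_pos Y]
      · refine no_mid_prime g3 g4 ?_ hl hql hlz
        rw [← Real.exp_add]
        linarith [Real.exp_pos Y])
  refine hJ2.trans ?_
  have hm := main_bound hJ0 hC1 hLpos hp2 (show p ≤ 2 * p by omega) (by omega) hRgt hMr hJ1
  have he := err_bound (R := R) (Z := Z32) (δ := L) (L := L) (a := a) (c := b0 - 1 / 2) (Y := Y) (A := 1)
    (p := p) (h := 0) le_rfl (by rw [Real.log_one]; ring) hRle (Nat.zero_le _) (by linarith) hZ0 ha
  have he2 : (R : ℝ) ^ 8 * ε ≤ Real.sqrt A * a * (Real.log p / p) ^ 2 := by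
    have e1 : Real.sqrt (A * ((R ^ 2 : ℕ) : ℝ) ^ 3 / Real.exp Y) =
        Real.sqrt A * Real.sqrt ((1 : ℝ) ^ 0 * ((R ^ 2 : ℕ) : ℝ) ^ 3 / Real.exp Y) := by
      rw [← Real.sqrt_mul (by linarith : (0 : ℝ) ≤ A), pow_zero, one_mul, mul_div_assoc]
    have e2 : (R : ℝ) ^ 8 * ε = Real.sqrt A * ((R : ℝ) ^ 8 * ((((R ^ 2 : ℕ) : ℝ) * (Z32 + 2)) ^ 2 *
      Real.sqrt ((1 : ℝ) ^ 0 * ((R ^ 2 : ℕ) : ℝ) ^ 3 / Real.exp Y))) := by
      rw [hε, e1]; ring
    rw [e2, mul_assoc]
    refine mul_le_mul_of_nonneg_left (he.trans ?_) hsA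
    exact mul_le_mul_of_nonneg_left hsmp ha0.le
  calc 4 / J ^ 2 + (R : ℝ) ^ 8 * ε ≤ 4 * (256 * C1 / L) ^ 2 * (Real.log p / p) ^ 2 +
        Real.sqrt A * a * (Real.log p / p) ^ 2 := add_le_add hm he2
    _ = _ := by ring

lemma shift_int (F : ℝ → ℝ) (b c : ℝ) :
    ∫ t in Set.Ioc b (b + 1), F (t + c) = ∫ t in Set.Ioc (b + c) (b + c + 1), F t := by
  rw [← intervalIntegral.integral_of_le (by linarith), ← intervalIntegral.integral_of_le (by linarith),
    intervalIntegral.integral_comp_add_right]
  congr 1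
  ring

lemma ysh_zero {α : ℝ} (hα : 0 < α) (p : ℕ) (t : ℝ) : ysh α (fun _ => 0) p t = t + Real.log α * p := by
  unfold ysh
  rw [add_zero, Real.log_mul (Real.exp_pos t).ne' (pow_pos hα p).ne', Real.log_exp, Real.log_pow]
  ring

open Classical in
/-- the two rough parts are both prime with a small probability -/
theorem two_near {α lam A : ℝ} (hα : 1 < α) (hlam : 1 ≤ lam) (hA : 1 ≤ A)
    (hdio : ∀ a b : ℕ, 1 ≤ a → 1 ≤ b → 1 ≤ |(a : ℝ) - b * lam| * (A * (a + b)))
    (b0 : ℝ) : ∃ K : ℝ, 0 < K ∧ ∃ P : ℕ, ∀ p ≥ P,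
      ∫ t in Set.Ioc b0 (b0 + 1), ff p (t + Real.log α * p) * ff p (t + Real.log lam + Real.log α * p) ≤
        K * (Real.log p / p) ^ 2 := by
  have hα0 : 0 < α := by linarith
  set L := Real.log α with hL
  have hLpos : 0 < L := Real.log_pos hα
  have hlam0 : 0 < lam := by linarith
  obtain ⟨K1, hK1, hW⟩ := two_window hα hlam hA hdio b0
  have hbig := large_part hα (κ := 0) (C := 0) le_rfl hα0 (g := fun _ => 0) (fun p => by simp) b0
  have hbig2 := large_part hα (κ := 0) (C := 0) le_rfl hα0 (g := fun _ => 0) (fun p => by simp)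
    (b0 + Real.log lam)
  have hsm := exp_small (c := 3 * L / 32) (by positivity)
  obtain ⟨P, hP⟩ := eventually_atTop.1 (hW.and (hbig.and (hbig2.and (hsm.and (eventually_ge_atTop 3)))))
  refine ⟨K1 + 64, by positivity, P, fun p hp => ?_⟩
  obtain ⟨hWp, hbp, hbq, hsmp, hp3⟩ := hP p hp
  simp only [ysh_zero hα0] at hbp hbq
  have hp3' : (3 : ℝ) ≤ p := by exact_mod_cast hp3
  have hp0 : (0 : ℝ) < p := by linarith
  set w := Real.log p / p with hw
  set G : ℝ → ℝ := fun y => if good α p y ∧ good α p (Real.log (lam * Real.exp y)) then (1 : ℝ) else 0 with hG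
  have hGm : Measurable G := by
    refine Measurable.ite ?_ measurable_const measurable_const
    refine (measurableSet_good α p).inter ?_
    have h1 : Measurable (fun y : ℝ => Real.log (lam * Real.exp y)) :=
      Real.measurable_log.comp (Real.measurable_exp.const_mul _)
    exact h1 (measurableSet_good α p)
  have hG0 : ∀ y, 0 ≤ G y := fun y => by simp only [hG]; split_ifs <;> norm_num
  have hG1 : ∀ y, G y ≤ 1 := fun y => by simp only [hG]; split_ifs <;> norm_num
  set Bb : ℝ → ℝ := fun y => if bad α p y then (1 : ℝ) else 0 with hBb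
  have hB0 : ∀ t, 0 ≤ Bb t := fun y => by simp only [hBb]; split_ifs <;> norm_num
  have hB1 : ∀ t, Bb t ≤ 1 := fun y => by simp only [hBb]; split_ifs <;> norm_num
  have hBm : Measurable Bb := Measurable.ite (measurableSet_bad α p) measurable_const measurable_const
  have hlog : ∀ y : ℝ, Real.log (lam * Real.exp y) = y + Real.log lam := fun y => by
    rw [Real.log_mul hlam0.ne' (Real.exp_pos y).ne', Real.log_exp]; ring
  have hpt : ∀ t : ℝ, ff p (t + L * p) * ff p (t + Real.log lam + L * p) ≤
      Bb (t + L * p) + Bb (t + Real.log lam + L * p) + G (t + L * p) := by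
    intro t
    have e1 := hB0 (t + L * p)
    have e2 := hB0 (t + Real.log lam + L * p)
    have e3 := hG0 (t + L * p)
    unfold ff
    by_cases h1 : (roughPart p (NN (t + L * p))).Prime
    · by_cases h2 : (roughPart p (NN (t + Real.log lam + L * p))).Prime
      · rw [if_pos h1, if_pos h2, mul_one]
        by_cases h3 : bad α p (t + L * p)
        · have : Bb (t + L * p) = 1 := by simp only [hBb]; rw [if_pos h3]
          linarith
        · by_cases h4 : bad α p (t + Real.log lam + L * p)
          · have : Bb (t + Real.log lam + L * p) = 1 := by simp only [hBb]; rw [if_pos h4]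
            linarith
          · have h5 : good α p (t + L * p) := ⟨h1, by
              by_contra hc
              exact h3 ⟨h1, not_lt.1 hc⟩⟩
            have h6 : good α p (t + Real.log lam + L * p) := ⟨h2, by
              by_contra hc
              exact h4 ⟨h2, not_lt.1 hc⟩⟩
            have h7 : good α p (Real.log (lam * Real.exp (t + L * p))) := by
              rw [hlog, show t + L * p + Real.log lam = t + Real.log lam + L * p by ring]
              exact h6
            have : G (t + L * p) = 1 := by simp only [hG]; rw [if_pos ⟨h5, h7⟩]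
            linarith
      · rw [if_neg h2, mul_zero]; linarith
    · rw [if_neg h1, zero_mul]; linarith
  have hbd : ∀ F : ℝ → ℝ, Measurable F → (∀ y, 0 ≤ F y) → (∀ y, F y ≤ 1) →
      IntegrableOn F (Set.Ioc b0 (b0 + 1)) := by
    intro F h1 h2 h3
    refine Measure.integrableOn_of_bounded (M := 1) (by simp) h1.aestronglyMeasurable ?_
    refine Eventually.of_forall fun t => ?_
    rw [Real.norm_eq_abs, abs_of_nonneg (h2 _)]
    exact h3 _
  have hfm : ∀ c : ℝ, Measurable (fun t : ℝ => ff p (t + c)) := fun c =>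
    (measurable_ff p).comp (measurable_id.add_const c)
  have hint1 := hbd (fun t : ℝ => ff p (t + L * p) * ff p (t + Real.log lam + L * p))
    ((hfm _).mul ((measurable_ff p).comp ((measurable_id.add_const _).add_const _)))
    (fun t => mul_nonneg (ff_nonneg _ _) (ff_nonneg _ _))
    (fun t => mul_le_one₀ (ff_le_one _ _) (ff_nonneg _ _) (ff_le_one _ _))
  have hi1 := hbd (fun t => Bb (t + L * p)) (hBm.comp (measurable_id.add_const _)) (fun _ => hB0 _)
    (fun _ => hB1 _)
  have hi2 := hbd (fun t => Bb (t + Real.log lam + L * p))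
    (hBm.comp ((measurable_id.add_const _).add_const _)) (fun _ => hB0 _) (fun _ => hB1 _)
  have hi3 := hbd (fun t => G (t + L * p)) (hGm.comp (measurable_id.add_const _)) (fun _ => hG0 _)
    (fun _ => hG1 _)
  have hstep : ∫ t in Set.Ioc b0 (b0 + 1), ff p (t + L * p) * ff p (t + Real.log lam + L * p) ≤
      (∫ t in Set.Ioc b0 (b0 + 1), Bb (t + L * p)) +
        (∫ t in Set.Ioc b0 (b0 + 1), Bb (t + Real.log lam + L * p)) +
        ∫ t in Set.Ioc b0 (b0 + 1), G (t + L * p) := by
    have i1 : IntegrableOn (fun t => Bb (t + L * p) + Bb (t + Real.log lam + L * p))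
      (Set.Ioc b0 (b0 + 1)) := hi1.add hi2
    rw [← integral_add hi1 hi2, ← integral_add i1 hi3]
    exact setIntegral_mono hint1 (i1.add hi3) hpt
  have hmain : ∫ t in Set.Ioc b0 (b0 + 1), G (t + L * p) ≤ K1 * w ^ 2 := by
    rw [shift_int G b0 (L * p)]
    exact hWp (b0 + L * p) (by linarith)
  have hBpb : ∫ t in Set.Ioc b0 (b0 + 1), Bb (t + L * p) ≤ 32 * w ^ 2 := by
    refine hbp.trans ?_
    linarith
  have hBqb : ∫ t in Set.Ioc b0 (b0 + 1), Bb (t + Real.log lam + L * p) ≤ 32 * w ^ 2 := by
    rw [shift_int (fun u => Bb (u + L * p)) b0 (Real.log lam)]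
    refine hbq.trans ?_
    linarith
  calc _ ≤ _ := hstep
    _ ≤ 32 * w ^ 2 + 32 * w ^ 2 + K1 * w ^ 2 := add_le_add (add_le_add hBpb hBqb) hmain
    _ = (K1 + 64) * w ^ 2 := by ring

end Pool.Agent.Helper523_NSW
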