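import Mathlib
import Pool.Agent.Helper523_NSW.Window
import Pool.Agent.H19P.QA

set_option autoImplicit false

/-!
# Almost everywhere statements
-/

namespace Pool.Agent.Helper523_NSW

open Finset MeasureTheory Filter Topology
open Pool.Agent.H305R2 (roughPart NN ff measurable_ff ff_nonneg ff_le_one)
open Pool.Agent.TH888.R (Pt cS VS Near pt_floor ae_windows one_le_gr VS_nonneg gr loglog_nonneg)

lemma summable_sq : Summable (fun p : ℕ => (Real.log p / p) ^ 2) := by
  have h1 : Summable (fun p : ℕ => 16 * (p : ℝ) ^ (-(3 / 2) : ℝ)) :=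
    (Real.summable_nat_rpow.2 (by norm_num)).mul_left 16
  refine Summable.of_nonneg_of_le (fun p => sq_nonneg _) (fun p => ?_) h1
  rcases Nat.eq_zero_or_pos p with rfl | hp
  · simp
  have hp0 : (0 : ℝ) < p := by exact_mod_cast hp
  have h2 : Real.log p ≤ (p : ℝ) ^ ((1 / 4 : ℝ)) / (1 / 4) := Real.log_le_rpow_div hp0.le (by norm_num)
  have h3 : 0 ≤ Real.log p := Real.log_natCast_nonneg p
  have h4 : 0 ≤ (p : ℝ) ^ ((1 / 4 : ℝ)) := by positivity
  calc (Real.log p / p) ^ 2 ≤ ((p : ℝ) ^ ((1 / 4 : ℝ)) / (1 / 4) / p) ^ 2 := by gcongr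
    _ = 16 * (((p : ℝ) ^ ((1 / 4 : ℝ))) ^ 2 / (p : ℝ) ^ 2) := by ring
    _ = 16 * (p : ℝ) ^ (-(3 / 2) : ℝ) := by
        rw [← Real.rpow_natCast ((p : ℝ) ^ ((1 / 4 : ℝ))) 2, ← Real.rpow_mul hp0.le,
          ← Real.rpow_natCast (p : ℝ) 2, ← Real.rpow_sub hp0]
        norm_num

/-- the lemma of Borel and Cantelli for events -/
lemma bc {Ω : Type*} [MeasurableSpace Ω] {μ : Measure Ω} [IsFiniteMeasure μ] {s : ℕ → Set Ω} {K : ℝ}
    {w : ℕ → ℝ} (hw : Summable w) (hw0 : ∀ p, 0 ≤ w p) (hK : 0 ≤ K) {P : ℕ}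
    (h : ∀ p ≥ P, μ (s p) ≤ ENNReal.ofReal (K * w p)) :
    ∀ᵐ t ∂μ, ∃ Q : ℕ, ∀ p ≥ Q, t ∉ s p := by
  set s' : ℕ → Set Ω := fun p => if p < P then ∅ else s p with hs'
  have h1 : (∑' i, μ (s' i)) ≠ ⊤ := by
    refine ne_top_of_le_ne_top (hw.mul_left K).tsum_ofReal_ne_top (ENNReal.tsum_le_tsum fun p => ?_)
    by_cases hp : p < P
    · simp [hs', hp]
    · simp only [hs', if_neg hp]
      exact h p (by omega)
  filter_upwards [ae_eventually_notMem h1] with t ht
  obtain ⟨Q, hQ⟩ := eventually_atTop.1 ht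
  refine ⟨max P Q, fun p hp => ?_⟩
  have h2 := hQ p (le_trans (le_max_right _ _) hp)
  have h3 : ¬ p < P := not_lt.2 (le_trans (le_max_left _ _) hp)
  simpa only [hs', if_neg h3] using h2

/-- the two rough parts are both prime only finitely often -/
theorem both_t {α lam A : ℝ} (hα : 1 < α) (hlam : 1 ≤ lam) (hA : 1 ≤ A)
    (hdio : ∀ a b : ℕ, 1 ≤ a → 1 ≤ b → 1 ≤ |(a : ℝ) - b * lam| * (A * (a + b))) :
    ∀ᵐ t : ℝ, ∃ Q : ℕ, ∀ p ≥ Q, ff p (t + Real.log α * p) * ff p (t + Real.log lam + Real.log α * p) = 0 := by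
  refine ae_windows fun b0 => ?_
  obtain ⟨K, hK, P, hP⟩ := two_near hα hlam hA hdio b0
  set F : ℕ → ℝ → ℝ := fun p t => ff p (t + Real.log α * p) * ff p (t + Real.log lam + Real.log α * p) with hF
  have hFm : ∀ p, Measurable (F p) := fun p =>
    ((measurable_ff p).comp (measurable_id.add_const _)).mul
      ((measurable_ff p).comp ((measurable_id.add_const _).add_const _))
  have h01 : ∀ p t, F p t = 0 ∨ F p t = 1 := by
    intro p t
    simp only [hF]
    unfold ff
    split_ifs <;> simp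
  have hset : ∀ p, MeasurableSet {t | F p t = 1} := fun p => hFm p (measurableSet_singleton 1)
  have hind : ∀ p, F p = Set.indicator {t | F p t = 1} 1 := by
    intro p
    funext t
    by_cases ht : F p t = 1
    · rw [Set.indicator_of_mem (show t ∈ {t | F p t = 1} from ht), ht]; rfl
    · rw [Set.indicator_of_notMem (show t ∉ {t | F p t = 1} from ht)]
      exact (h01 p t).resolve_right ht
  have hb : ∀ p ≥ P, (volume.restrict (Set.Ioc b0 (b0 + 1))) {t | F p t = 1} ≤
      ENNReal.ofReal (K * (Real.log p / p) ^ 2) := by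
    intro p hp
    have h1 := hP p hp
    have h2 : ∫ t in Set.Ioc b0 (b0 + 1), F p t =
        (volume.restrict (Set.Ioc b0 (b0 + 1))).real {t | F p t = 1} := by
      rw [hind p]
      rw [integral_indicator_one]
      · congr 1
        ext t
        simp only [Set.mem_setOf_eq]
        rw [← hind p]
      · exact hset p
    have h3 : (volume.restrict (Set.Ioc b0 (b0 + 1))).real {t | F p t = 1} ≤ K * (Real.log p / p) ^ 2 := by
      rw [← h2]; exact h1
    rw [← ENNReal.ofReal_toReal (measure_ne_top (volume.restrict (Set.Ioc b0 (b0 + 1))) {t | F p t = 1})]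
    exact ENNReal.ofReal_le_ofReal h3
  filter_upwards [bc summable_sq (fun p => sq_nonneg _) hK.le hb] with t ht
  obtain ⟨Q, hQ⟩ := ht
  exact ⟨Q, fun p hp => (h01 p t).resolve_right (hQ p hp)⟩

/-- multiplication by a constant preserves the statements on almost all reals -/
lemma ae_mul {Q : ℝ → Prop} {c : ℝ} (hc : c ≠ 0) (h : ∀ᵐ β : ℝ, Q β) : ∀ᵐ β : ℝ, Q (c * β) := by
  have hq : Measure.QuasiMeasurePreserving (fun β : ℝ => c * β) volume volume := by
    refine ⟨measurable_const_mul c, ?_⟩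
    rw [Real.map_volume_mul_left hc]
    exact Measure.smul_absolutelyContinuous
  exact hq.ae h

/-- the distance of `β α ^ p` from the integers is at least `1 / p ^ 2` for large `p` -/
def Far (α β : ℝ) : Prop := ∃ P : ℕ, ∀ p ≥ P, ∀ m : ℤ, 1 / (p : ℝ) ^ 2 ≤ |β * α ^ p - m|

lemma far_ae {α : ℝ} (hα : 1 < α) : ∀ᵐ β : ℝ, 0 < β → Far α β := by
  have hM : ∀ M : ℕ, ∀ᵐ β : ℝ, β ∈ Set.Ioc (0 : ℝ) M → Far α β := by
    intro M
    rw [← ae_restrict_iff' measurableSet_Ioc]
    set T : ℕ → Set ℝ := fun p => {β | ∃ m : ℤ, |β * α ^ p - m| < 1 / (p : ℝ) ^ 2} with hT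
    have hsum : Summable (fun p : ℕ => 1 / (p : ℝ) ^ 2) := Real.summable_one_div_nat_pow.2 (by norm_num)
    have hb : ∀ p ≥ 1, (volume.restrict (Set.Ioc (0 : ℝ) M)) (T p) ≤
        ENNReal.ofReal ((2 * (M + 2)) * (1 / (p : ℝ) ^ 2)) := by
      intro p hp
      have hp1 : (1 : ℝ) ≤ p := by exact_mod_cast hp
      have hαp : 1 ≤ α ^ p := one_le_pow₀ hα.le
      have hαp0 : 0 < α ^ p := by linarith
      have hη : 1 / (p : ℝ) ^ 2 ≤ 1 := by
        rw [div_le_one (by positivity)]
        nlinarith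
      have hη0 : 0 < 1 / (p : ℝ) ^ 2 := by positivity
      set η := 1 / (p : ℝ) ^ 2 with hηdef
      set N := ⌊(M : ℝ) * α ^ p⌋₊ + 2 with hN
      have hNr : (N : ℝ) ≤ (M + 2) * α ^ p := by
        rw [hN]
        push_cast
        have := Nat.floor_le (show 0 ≤ (M : ℝ) * α ^ p by positivity)
        nlinarith
      have hsub : T p ∩ Set.Ioc (0 : ℝ) M ⊆
          ⋃ m ∈ Finset.range N, Set.Ioo (((m : ℝ) - η) / α ^ p) (((m : ℝ) + η) / α ^ p) := by
        rintro β ⟨⟨m, hm⟩, hβ0, hβM⟩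
        have hv0 : 0 < β * α ^ p := by positivity
        have hvM : β * α ^ p ≤ M * α ^ p := mul_le_mul_of_nonneg_right hβM hαp0.le
        rw [abs_lt] at hm
        have hm0 : 0 ≤ m := by
          by_contra hc
          have : m ≤ -1 := by omega
          have : (m : ℝ) ≤ -1 := by exact_mod_cast this
          linarith [hm.2]
        obtain ⟨k, rfl⟩ := Int.eq_ofNat_of_zero_le hm0
        simp only [Int.ofNat_eq_natCast, Int.cast_natCast] at hm
        simp only [Set.mem_iUnion, Finset.mem_range]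
        refine ⟨k, ?_, ?_⟩
        · have h1 : (k : ℝ) < M * α ^ p + 1 := by linarith [hm.1]
          have h2 := Nat.lt_floor_add_one ((M : ℝ) * α ^ p)
          have h3 : (k : ℝ) < ((⌊(M : ℝ) * α ^ p⌋₊ + 2 : ℕ) : ℝ) := by push_cast; linarith
          exact_mod_cast h3
        · constructor
          · rw [div_lt_iff₀ hαp0]; linarith [hm.1]
          · rw [lt_div_iff₀ hαp0]; linarith [hm.2]
      rw [Measure.restrict_apply' measurableSet_Ioc]
      refine (measure_mono hsub).trans ((measure_biUnion_finset_le _ _).trans ?_)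
      have hvol : ∀ m ∈ Finset.range N,
          volume (Set.Ioo (((m : ℝ) - η) / α ^ p) (((m : ℝ) + η) / α ^ p)) =
          ENNReal.ofReal (2 * η / α ^ p) := by
        intro m _
        rw [Real.volume_Ioo]
        congr 1
        ring
      rw [Finset.sum_congr rfl hvol, Finset.sum_const, Finset.card_range, nsmul_eq_mul,
        ← ENNReal.ofReal_natCast, ← ENNReal.ofReal_mul (Nat.cast_nonneg _)]
      refine ENNReal.ofReal_le_ofReal ?_
      rw [mul_div_assoc', div_le_iff₀ hαp0]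
      have := mul_le_mul_of_nonneg_right hNr (show 0 ≤ 2 * η by positivity)
      linarith
    filter_upwards [bc hsum (fun p => by positivity) (by positivity) hb] with β hβ
    obtain ⟨Q, hQ⟩ := hβ
    refine ⟨Q, fun p hp m => ?_⟩
    by_contra hc
    exact hQ p hp ⟨m, not_le.1 hc⟩
  filter_upwards [ae_all_iff.2 hM] with β hβ h0
  obtain ⟨M, hM⟩ := exists_nat_ge β
  exact hβ M ⟨h0, hM⟩

/-- the floor does not change under a small perturbation -/
lemma floor_near {v w η : ℝ} (hv : 0 < v) (h : ∀ m : ℤ, η ≤ |v - m|) (hw : |w - v| < η) :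
    ⌊w⌋₊ = ⌊v⌋₊ := by
  have h1 := Nat.floor_le hv.le
  have h2 := Nat.lt_floor_add_one v
  have h3 := h (⌊v⌋₊ : ℤ)
  have h4 := h ((⌊v⌋₊ : ℤ) + 1)
  push_cast at h3 h4
  rw [abs_of_nonneg (by linarith)] at h3
  rw [abs_of_neg (by linarith)] at h4
  have h5 := abs_lt.1 hw
  have h6 : (0 : ℝ) ≤ (⌊v⌋₊ : ℝ) := Nat.cast_nonneg _
  rw [Nat.floor_eq_iff (by linarith)]
  constructor <;> linarith

lemma ff_log {p : ℕ} {v η : ℝ} (hv : 0 < v) (hη : 0 < η) (h : ∀ m : ℤ, η ≤ |v - m|) :
    ff p (Real.log v) = if (roughPart p ⌊v⌋₊).Prime then 1 else 0 := by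
  refine Pool.Agent.H447R2.ML.ff_eq_floor hv fun m hm => ?_
  have := h (m : ℤ)
  rw [hm] at this
  simp at this
  linarith

/-- the law depends only on the large arguments -/
lemma pt_congr {s s' : ℕ → ℕ} {c : ℝ} {S : Set ℕ} {P : ℕ} (h : ∀ p ≥ P, s' p = s p) (hs : Pt s c S) :
    Pt s' c S := by
  classical
  have hset : ∀ p ≥ P, ((p.Prime ∧ p ∈ S ∧ (roughPart p (s' p)).Prime) ↔
      (p.Prime ∧ p ∈ S ∧ (roughPart p (s p)).Prime)) := fun p hp => by rw [h p hp]
  have hcard : ∀ n, (cS S s' n : ℝ) ≤ cS S s n + P ∧ (cS S s n : ℝ) ≤ cS S s' n + P := by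
    intro n
    unfold cS
    constructor
    · have h1 : (range (n + 1)).filter (fun p => p.Prime ∧ p ∈ S ∧ (roughPart p (s' p)).Prime) ⊆
          (range (n + 1)).filter (fun p => p.Prime ∧ p ∈ S ∧ (roughPart p (s p)).Prime) ∪ range P := by
        intro p hp
        rw [mem_filter] at hp
        rw [mem_union, mem_filter]
        by_cases hP : P ≤ p
        · exact Or.inl ⟨hp.1, (hset p hP).1 hp.2⟩
        · exact Or.inr (mem_range.2 (by omega))
      have h2 := (card_le_card h1).trans (card_union_le _ _)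
      rw [card_range] at h2
      exact_mod_cast h2
    · have h1 : (range (n + 1)).filter (fun p => p.Prime ∧ p ∈ S ∧ (roughPart p (s p)).Prime) ⊆
          (range (n + 1)).filter (fun p => p.Prime ∧ p ∈ S ∧ (roughPart p (s' p)).Prime) ∪ range P := by
        intro p hp
        rw [mem_filter] at hp
        rw [mem_union, mem_filter]
        by_cases hP : P ≤ p
        · exact Or.inl ⟨hp.1, (hset p hP).2 hp.2⟩
        · exact Or.inr (mem_range.2 (by omega))
      have h2 := (card_le_card h1).trans (card_union_le _ _)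
      rw [card_range] at h2
      exact_mod_cast h2
  refine ⟨fun hV => ?_, fun hV hfin => ?_, fun hV => ?_⟩
  · obtain ⟨B, hB, hl⟩ := hs.law hV
    refine ⟨B + P, by positivity, fun n hn => ?_⟩
    have h1 := hl n hn
    have h3 : 1 ≤ gr (VS S n * (1 + Real.log (Real.log n))) := by
      refine one_le_gr ?_
      have := loglog_nonneg hn
      have := VS_nonneg S n
      positivity
    have h5 : (P : ℝ) ≤ P * gr (VS S n * (1 + Real.log (Real.log n))) := by
      have : (0 : ℝ) ≤ P := Nat.cast_nonneg P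
      nlinarith
    have h6 := abs_le.1 h1
    have h7 := hcard n
    rw [abs_le]
    constructor <;> nlinarith [h6.1, h6.2, h7.1, h7.2]
  · refine hs.inf hV ((hfin.union (Set.finite_lt_nat P)).subset fun p hp => ?_)
    by_cases h1 : P ≤ p
    · exact Or.inl ((hset p h1).2 hp)
    · exact Or.inr (by show p < P; omega)
  · refine ((hs.fin hV).union (Set.finite_lt_nat P)).subset fun p hp => ?_
    by_cases h1 : P ≤ p
    · exact Or.inl ((hset p h1).1 hp)
    · exact Or.inr (by show p < P; omega)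

end Pool.Agent.Helper523_NSW
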