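import Mathlib
import Pool.Agent.Helper523_NSW.Ae
import Pool.Agent.H447R2.ML.P9

set_option autoImplicit false

/-!
# The laws for the two coordinates
-/

namespace Pool.Agent.Helper523_NSW

open Finset MeasureTheory Filter Topology
open Pool.Agent.H305R2 (roughPart NN ff measurable_ff ff_nonneg ff_le_one)
open Pool.Agent.TH888.R (Pt cS VS Near pt_floor ae_windows one_le_gr VS_nonneg gr loglog_nonneg)

/-- the law for the integer parts of `β α ^ p` -/
lemma base_law {α α' : ℝ} {P : ℤ} (hα : 1 < α) (hs : α + α' = P) (hm : α * α' = -1) (S : Set ℕ) :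
    ∀ᵐ β : ℝ, 0 < β → Pt (fun p => ⌊β * α ^ p⌋₊)
      (Real.exp Real.eulerMascheroniConstant / Real.log α) S := by
  filter_upwards [Pool.Agent.H19P.pt_unit hα hs hm 0 S] with β hβ h0
  simpa using hβ h0

/-- a small perturbation does not matter -/
lemma eventually_floor {α β : ℝ} (hα : 1 < α) (hβ : 0 < β) (hf : Far α β) (κ : ℝ) :
    ∃ P : ℕ, ∀ p ≥ P, ⌊β * α ^ p + κ / α ^ p⌋₊ = ⌊β * α ^ p⌋₊ := by
  obtain ⟨P, hP⟩ := hf
  have h1 : Tendsto (fun n : ℕ => (n : ℝ) ^ 2 / α ^ n) atTop (𝓝 0) :=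
    tendsto_pow_const_div_const_pow_of_one_lt 2 hα
  have h2 : ∀ᶠ n : ℕ in atTop, |κ| * ((n : ℝ) ^ 2 / α ^ n) < 1 := by
    have h3 := h1.const_mul |κ|
    rw [mul_zero] at h3
    exact h3.eventually (gt_mem_nhds one_pos)
  obtain ⟨Q, hQ⟩ := eventually_atTop.1 h2
  refine ⟨max (max P Q) 1, fun p hp => ?_⟩
  have hp1 : 1 ≤ p := le_trans (le_max_right _ _) hp
  have hpP : P ≤ p := le_trans ((le_max_left _ _).trans (le_max_left _ _)) hp
  have hpQ : Q ≤ p := le_trans ((le_max_right _ _).trans (le_max_left _ _)) hp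
  have hp0 : (0 : ℝ) < p := by exact_mod_cast hp1
  have hα0 : 0 < α := by linarith
  have hαp : 0 < α ^ p := by positivity
  refine floor_near (by positivity) (hP p hpP) ?_
  rw [show β * α ^ p + κ / α ^ p - β * α ^ p = κ / α ^ p by ring, abs_div, abs_of_pos hαp,
    div_lt_div_iff₀ hαp (by positivity), one_mul]
  have h4 := hQ p hpQ
  rw [← mul_div_assoc, div_lt_one hαp] at h4
  exact h4

/-- the law for one coordinate -/
lemma pert_law {α α' : ℝ} {P : ℤ} (hα : 1 < α) (hs : α + α' = P) (hm : α * α' = -1) (S : Set ℕ)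
    {c : ℝ} (hc : 0 < c) (κ : ℝ → ℝ) :
    ∀ᵐ ρ : ℝ, 0 < ρ → Pt (fun p => ⌊c * ρ * α ^ p + κ ρ / α ^ p⌋₊)
      (Real.exp Real.eulerMascheroniConstant / Real.log α) S := by
  filter_upwards [ae_mul hc.ne' (base_law hα hs hm S), ae_mul hc.ne' (far_ae hα)] with ρ h1 h2 h0
  have h3 : 0 < c * ρ := by positivity
  obtain ⟨P, hP⟩ := eventually_floor hα h3 (h2 h3) (κ ρ)
  exact pt_congr hP (h1 h3)

/-- the two rough parts are both prime only finitely often -/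
lemma both_law {α lam A : ℝ} (hα : 1 < α) (hlam : 1 ≤ lam) (hA : 1 ≤ A)
    (hdio : ∀ a b : ℕ, 1 ≤ a → 1 ≤ b → 1 ≤ |(a : ℝ) - b * lam| * (A * (a + b)))
    {c : ℝ} (hc : 0 < c) (κ κ' : ℝ → ℝ) :
    ∀ᵐ ρ : ℝ, 0 < ρ → ∃ Q : ℕ, ∀ p ≥ Q,
      ¬ ((roughPart p ⌊lam * c * ρ * α ^ p + κ ρ / α ^ p⌋₊).Prime ∧
        (roughPart p ⌊c * ρ * α ^ p + κ' ρ / α ^ p⌋₊).Prime) := by
  have hlam0 : 0 < lam := by linarith
  have h0 : ∀ᵐ x : ℝ, 0 < x → ∃ Q : ℕ, ∀ p ≥ Q,
      ff p (Real.log x + Real.log α * p) * ff p (Real.log x + Real.log lam + Real.log α * p) = 0 := by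
    refine Pool.Agent.H447R2.ML.ae_exp1 (P := fun x => ∃ Q : ℕ, ∀ p ≥ Q,
      ff p (Real.log x + Real.log α * p) * ff p (Real.log x + Real.log lam + Real.log α * p) = 0) ?_
    filter_upwards [both_t hα hlam hA hdio] with t ht
    simpa only [Real.log_exp] using ht
  have hlc : 0 < lam * c := by positivity
  filter_upwards [ae_mul hc.ne' h0, ae_mul hc.ne' (far_ae hα), ae_mul hlc.ne' (far_ae hα)]
    with ρ h1 h2 h3 hρ
  have hβ : 0 < c * ρ := by positivity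
  have hβ' : 0 < lam * c * ρ := by positivity
  obtain ⟨Q1, hQ1⟩ := h1 hβ
  have hf := h2 hβ
  have hf' := h3 hβ'
  obtain ⟨Q2, hQ2⟩ := eventually_floor hα hβ hf (κ' ρ)
  obtain ⟨Q3, hQ3⟩ := eventually_floor hα hβ' hf' (κ ρ)
  obtain ⟨Q4, hQ4⟩ := hf
  obtain ⟨Q5, hQ5⟩ := hf'
  refine ⟨Q1 + Q2 + Q3 + Q4 + Q5 + 1, fun p hp => ?_⟩
  rw [hQ2 p (by omega), hQ3 p (by omega)]
  have hp0 : (0 : ℝ) < p := by exact_mod_cast (show 0 < p by omega)
  have hη : (0 : ℝ) < 1 / (p : ℝ) ^ 2 := by positivity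
  have hα0 : 0 < α := by linarith
  have hαp : 0 < α ^ p := by positivity
  have e1 : Real.log (c * ρ) + Real.log α * p = Real.log (c * ρ * α ^ p) := by
    rw [Real.log_mul hβ.ne' hαp.ne', Real.log_pow]; ring
  have e2 : Real.log (c * ρ) + Real.log lam + Real.log α * p = Real.log (lam * c * ρ * α ^ p) := by
    rw [Real.log_mul hβ'.ne' hαp.ne', Real.log_pow, mul_assoc lam c ρ, Real.log_mul hlam0.ne' hβ.ne']
    ring
  have h4 := hQ1 p (by omega)
  rw [e1, e2, ff_log (by positivity) hη (hQ4 p (by omega)), ff_log (by positivity) hη (hQ5 p (by omega))]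
    at h4
  rintro ⟨h5, h6⟩
  rw [if_pos h5, if_pos h6] at h4
  norm_num at h4

end Pool.Agent.Helper523_NSW
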