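import Mathlib
import Pool.Agent.H447R2.ML.Spec
import Pool.Agent.Helper523_NSW.Main

set_option autoImplicit false

/-!
# The points of the hyperbola `x ^ 2 - 2 y ^ 2 = -1`

Definitions and lemmas for the hand-ins `RealPoints` and `BothRare` of MP_927e73_nt.
-/

namespace Pool.Agent.Helper523_NSW.A

open Filter Topology MeasureTheory Asymptotics

/-- The unit `1 + √2`. -/
noncomputable def α : ℝ := 1 + Real.sqrt 2

/-- The first coordinate of the point with `x + y √2 = ρ α ^ n`. -/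
noncomputable def x (ρ : ℝ) (n : ℕ) : ℝ := (ρ * α ^ n - (ρ * α ^ n)⁻¹) / 2

/-- The second coordinate of the point with `x + y √2 = ρ α ^ n`. -/
noncomputable def y (ρ : ℝ) (n : ℕ) : ℝ := (ρ * α ^ n + (ρ * α ^ n)⁻¹) / (2 * Real.sqrt 2)

/-- The product, with multiplicity, of the prime factors of `m` that are larger than `n`. -/
def roughPart (n m : ℕ) : ℕ := (m.primeFactorsList.filter (fun r => n < r)).prod

/-- The `n`-rough part of `⌊z n⌋`. -/
noncomputable def W (z : ℕ → ℝ) (n : ℕ) : ℕ := roughPart n ⌊z n⌋₊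

open Classical in
/-- The number of primes `p ≤ n` in the set `S` for which `W z p` is prime. -/
noncomputable def M (S : Set ℕ) (z : ℕ → ℝ) (n : ℕ) : ℕ :=
  ((Finset.range (n + 1)).filter (fun p => p.Prime ∧ p ∈ S ∧ (W z p).Prime)).card

open Classical in
/-- The sum of `log p / p` over the primes `p ≤ n` in the set `S`. -/
noncomputable def V (S : Set ℕ) (n : ℕ) : ℝ :=
  ∑ p ∈ (Finset.range (n + 1)).filter (fun p => p.Prime ∧ p ∈ S), Real.log p / p

lemma V_eq (S : Set ℕ) (n : ℕ) : V S n = Pool.Agent.TH888.R.VS S n := by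
  classical
  unfold V Pool.Agent.TH888.R.VS
  rw [Finset.sum_filter]
  refine Finset.sum_congr rfl fun p _ => ?_
  by_cases h : p.Prime ∧ p ∈ S
  · rw [if_pos h, if_pos ⟨h.2, h.1⟩]
    rfl
  · rw [if_neg h, if_neg fun h1 => h ⟨h1.2, h1.1⟩]

lemma M_eq (S : Set ℕ) (z : ℕ → ℝ) (n : ℕ) :
    M S z n = Pool.Agent.TH888.R.cS S (fun p => ⌊z p⌋₊) n := by
  classical
  unfold M Pool.Agent.TH888.R.cS
  rfl

lemma s2_sq : Real.sqrt 2 ^ 2 = 2 := Real.sq_sqrt (by norm_num)

lemma s2_pos : 0 < Real.sqrt 2 := Real.sqrt_pos.2 (by norm_num)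

lemma one_le_s2 : 1 ≤ Real.sqrt 2 := by nlinarith [s2_sq, s2_pos]

lemma s2_le : Real.sqrt 2 ≤ 2 := by nlinarith [s2_sq, s2_pos]

lemma one_lt_alpha : 1 < α := by unfold α; linarith [s2_pos]

lemma alpha_pos : 0 < α := by linarith [one_lt_alpha]

/-- The conjugate unit. -/
noncomputable def α' : ℝ := 1 - Real.sqrt 2

lemma alpha_add : α + α' = ((2 : ℤ) : ℝ) := by unfold α α'; push_cast; ring

lemma alpha_mul : α * α' = -1 := by unfold α α'; nlinarith [s2_sq]

lemma alpha_sq : α ^ 2 = 3 + 2 * Real.sqrt 2 := by unfold α; nlinarith [s2_sq]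

lemma alpha_sq_inv : (α ^ 2)⁻¹ = 3 - 2 * Real.sqrt 2 := by
  rw [alpha_sq]
  refine (eq_inv_of_mul_eq_one_left ?_).symm
  nlinarith [s2_sq]

/-- the points lie on the hyperbola -/
lemma point {ρ : ℝ} (hρ : 0 < ρ) (n : ℕ) :
    x ρ n ^ 2 - 2 * y ρ n ^ 2 = -1 ∧ x ρ n + y ρ n * Real.sqrt 2 = ρ * α ^ n := by
  have h0 : ρ * α ^ n ≠ 0 := by have := alpha_pos; positivity
  have h1 : ρ * α ^ n * (ρ * α ^ n)⁻¹ = 1 := mul_inv_cancel₀ h0
  have hs := s2_sq
  have hs0 := s2_pos.ne'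
  unfold x y
  generalize ρ * α ^ n = A at *
  generalize A⁻¹ = B at *
  constructor
  · rw [div_pow, div_pow, mul_pow, hs]
    linear_combination (-1) * h1
  · have : (A + B) / (2 * Real.sqrt 2) * Real.sqrt 2 = (A + B) / 2 := by field_simp
    rw [this]
    ring

/-- two steps of the orbit -/
lemma step (ρ : ℝ) (n : ℕ) :
    x ρ (n + 2) = 3 * x ρ n + 4 * y ρ n ∧ y ρ (n + 2) = 2 * x ρ n + 3 * y ρ n := by
  have hs := s2_sq
  have hs0 := s2_pos.ne'
  unfold x y
  rw [pow_add, ← mul_assoc, mul_inv, alpha_sq_inv, alpha_sq]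
  generalize ρ * α ^ n = A at *
  generalize A⁻¹ = B at *
  constructor
  · field_simp
    linear_combination 2 * (A + B) * hs
  · field_simp
    ring

lemma x_one_one : x 1 1 = 1 := by
  have h : α⁻¹ = Real.sqrt 2 - 1 := by
    refine (eq_inv_of_mul_eq_one_left ?_).symm
    unfold α
    nlinarith [s2_sq]
  unfold x
  rw [pow_one, one_mul, h]
  unfold α
  ring

lemma y_one_one : y 1 1 = 1 := by
  have h : α⁻¹ = Real.sqrt 2 - 1 := by
    refine (eq_inv_of_mul_eq_one_left ?_).symm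
    unfold α
    nlinarith [s2_sq]
  have hs0 := s2_pos.ne'
  unfold y
  rw [pow_one, one_mul, h]
  unfold α
  field_simp
  ring

/-- the integer points -/
def sol : ℕ → ℕ × ℕ
  | 0 => (1, 1)
  | (k + 1) => (3 * (sol k).1 + 4 * (sol k).2, 2 * (sol k).1 + 3 * (sol k).2)

lemma sol_real (k : ℕ) : x 1 (2 * k + 1) = (sol k).1 ∧ y 1 (2 * k + 1) = (sol k).2 := by
  induction k with
  | zero => simp [sol, x_one_one, y_one_one]
  | succ k ih =>
    obtain ⟨h1, h2⟩ := step 1 (2 * k + 1)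
    rw [show 2 * (k + 1) + 1 = 2 * k + 1 + 2 by ring, h1, h2, ih.1, ih.2]
    simp [sol]

lemma sol_eq (k : ℕ) : (sol k).1 ^ 2 + 1 = 2 * (sol k).2 ^ 2 := by
  induction k with
  | zero => rfl
  | succ k ih =>
    simp only [sol]
    linarith [show (3 * (sol k).1 + 4 * (sol k).2) ^ 2 + 1 + 2 * (sol k).2 ^ 2 =
      2 * (2 * (sol k).1 + 3 * (sol k).2) ^ 2 + ((sol k).1 ^ 2 + 1) by ring]

lemma sol_pos (k : ℕ) : 0 < (sol k).1 ∧ 0 < (sol k).2 := by
  induction k with
  | zero => exact ⟨one_pos, one_pos⟩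
  | succ k ih => simp only [sol]; omega

lemma sol_odd (k : ℕ) : (sol k).1 % 2 = 1 := by
  induction k with
  | zero => rfl
  | succ k ih => simp only [sol]; omega

lemma sol_mono : StrictMono (fun k => (sol k).1) := by
  refine strictMono_nat_of_lt_succ fun k => ?_
  have := sol_pos k
  simp only [sol]
  omega

/-- all integer points -/
lemma sol_all : ∀ r p : ℕ, p ^ 2 + 1 = 2 * r ^ 2 → ∃ k, sol k = (p, r) := by
  intro r
  induction r using Nat.strong_induction_on with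
  | _ r ih =>
    intro p h
    rcases Nat.lt_or_ge p 2 with hp | hp
    · interval_cases p
      · omega
      · have hr : r = 1 := by nlinarith
        exact ⟨0, by rw [hr]; rfl⟩
    · have h1 : 4 * r ≤ 3 * p := by
        by_contra hc
        push Not at hc
        nlinarith
      have h2 : 2 * p ≤ 3 * r := by
        by_contra hc
        push Not at hc
        nlinarith
      obtain ⟨p', hp'⟩ : ∃ p', 3 * p = 4 * r + p' := ⟨3 * p - 4 * r, by omega⟩
      obtain ⟨r', hr'⟩ : ∃ r', 3 * r = 2 * p + r' := ⟨3 * r - 2 * p, by omega⟩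
      have h3 : p' ^ 2 + 1 = 2 * r' ^ 2 := by
        zify at *
        have e1 : (p' : ℤ) = 3 * p - 4 * r := by linarith
        have e2 : (r' : ℤ) = 3 * r - 2 * p := by linarith
        rw [e1, e2]
        linarith
      have h4 : r' < r := by
        by_contra hc
        push Not at hc
        have : p ≤ r := by omega
        nlinarith
      obtain ⟨k, hk⟩ := ih r' h4 p' h3
      refine ⟨k + 1, ?_⟩
      simp only [sol, hk, Prod.mk.injEq]
      constructor <;> omega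

lemma UV (n : ℕ) : (Pool.Agent.H447R2.ML.U 2 n : ℝ) * (2 * Real.sqrt 2) = α ^ n - α' ^ n ∧
    (Pool.Agent.H447R2.ML.V 2 n : ℝ) = α ^ n + α' ^ n := by
  refine Pool.Agent.H447R2.ML.closed 2 ?_ ?_ ?_ n
  · rw [mul_pow, s2_sq]; norm_num
  · unfold α; push_cast; ring
  · unfold α'; push_cast; ring

lemma conj_pow (k : ℕ) : (1 * α ^ (2 * k + 1))⁻¹ = -α' ^ (2 * k + 1) := by
  refine (eq_inv_of_mul_eq_one_left ?_).symm
  rw [one_mul, neg_mul, ← mul_pow, mul_comm α' α, alpha_mul, pow_succ, pow_mul]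
  norm_num

lemma U_sol (k : ℕ) : Pool.Agent.H447R2.ML.U 2 (2 * k + 1) = (sol k).2 := by
  have h1 := (sol_real k).2
  have h2 := (UV (2 * k + 1)).1
  unfold y at h1
  rw [conj_pow, one_mul, ← sub_eq_add_neg, ← h2,
    mul_div_cancel_right₀ _ (by have := s2_pos; positivity)] at h1
  exact_mod_cast h1

lemma V_sol (k : ℕ) : Pool.Agent.H447R2.ML.V 2 (2 * k + 1) = 2 * (sol k).1 := by
  have h1 := (sol_real k).1
  have h2 := (UV (2 * k + 1)).2
  unfold x at h1
  rw [conj_pow, one_mul, sub_neg_eq_add, ← h2] at h1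
  have h3 : (Pool.Agent.H447R2.ML.V 2 (2 * k + 1) : ℝ) = 2 * (sol k).1 := by linarith
  exact_mod_cast h3

lemma V_add (m a : ℕ) (ha : Odd a) : Pool.Agent.H447R2.ML.V 2 (m + 2 * a) =
    Pool.Agent.H447R2.ML.V 2 a * Pool.Agent.H447R2.ML.V 2 (m + a) + Pool.Agent.H447R2.ML.V 2 m := by
  have h1 : (α * α') ^ a = -1 := by rw [alpha_mul]; exact ha.neg_one_pow
  have h2 : (Pool.Agent.H447R2.ML.V 2 (m + 2 * a) : ℝ) =
    Pool.Agent.H447R2.ML.V 2 a * Pool.Agent.H447R2.ML.V 2 (m + a) + Pool.Agent.H447R2.ML.V 2 m := by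
    rw [(UV _).2, (UV _).2, (UV _).2, (UV _).2]
    rw [mul_pow] at h1
    rw [show α ^ (m + 2 * a) = α ^ m * α ^ a * α ^ a by ring,
      show α' ^ (m + 2 * a) = α' ^ m * α' ^ a * α' ^ a by ring, pow_add α m a, pow_add α' m a]
    linear_combination (-(α ^ m + α' ^ m)) * h1
  exact_mod_cast h2

lemma V_dvd {a : ℕ} (ha : Odd a) (j : ℕ) :
    Pool.Agent.H447R2.ML.V 2 a ∣ Pool.Agent.H447R2.ML.V 2 (a * (2 * j + 1)) := by
  induction j with
  | zero => simp
  | succ j ih =>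
    rw [show a * (2 * (j + 1) + 1) = a * (2 * j + 1) + 2 * a by ring, V_add _ _ ha]
    exact dvd_add (dvd_mul_right _ _) ih

/-- a prime first coordinate has a prime index -/
lemma prime_index {k : ℕ} (h : (sol k).1.Prime) : (2 * k + 1).Prime := by
  have hk : 1 < 2 * k + 1 := by
    rcases Nat.eq_zero_or_pos k with rfl | hk
    · exact absurd h (by decide)
    · omega
  by_contra hn
  obtain ⟨a, b, hab, ha, hb⟩ : ∃ a b : ℕ, a * b = 2 * k + 1 ∧ 1 < a ∧ 1 < b := by
    obtain ⟨a, hdvd, h1, h2⟩ := Nat.exists_dvd_of_not_prime2 hk hn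
    obtain ⟨b, hb⟩ := hdvd
    refine ⟨a, b, hb.symm, by omega, ?_⟩
    by_contra hc
    have : b = 0 ∨ b = 1 := by omega
    rcases this with rfl | rfl
    · omega
    · omega
  have hodd : Odd (a * b) := by rw [hab]; exact ⟨k, rfl⟩
  obtain ⟨hao, hbo⟩ := Nat.odd_mul.1 hodd
  obtain ⟨i, hi⟩ := hao
  obtain ⟨j, hj⟩ := hbo
  have h1 := V_dvd (a := a) ⟨i, hi⟩ j
  rw [← hj, hab, hi, V_sol, V_sol] at h1
  have h2 : (sol i).1 ∣ (sol k).1 := Nat.dvd_of_mul_dvd_mul_left two_pos h1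
  have hik : i < k := by nlinarith
  have hi0 : 0 < i := by omega
  have h3 : (sol i).1 < (sol k).1 := sol_mono hik
  have h4 : (sol 0).1 < (sol i).1 := sol_mono hi0
  rcases (Nat.dvd_prime h).1 h2 with h5 | h5
  · rw [h5] at h4
    exact absurd h4 (by decide)
  · omega

/-- the integer points with a prime index: no small prime factors -/
lemma W_sol {l : ℕ} (hl : l.Prime) (h2 : l ≠ 2) :
    (W (x 1) l : ℝ) = x 1 l ∧ (W (y 1) l : ℝ) = y 1 l := by
  obtain ⟨k, hk⟩ := hl.odd_of_ne_two h2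
  subst hk
  obtain ⟨hx, hy⟩ := sol_real k
  have hk0 : 1 ≤ k := by
    rcases Nat.eq_zero_or_pos k with rfl | hk
    · exact absurd hl (by decide)
    · exact hk
  have hpos := sol_pos k
  unfold W
  rw [hx, hy, Nat.floor_natCast, Nat.floor_natCast]
  rcases Nat.lt_or_ge k 2 with hk2 | hk2
  · have hk1 : k = 1 := by omega
    subst hk1
    have e1 : roughPart 3 7 = 7 :=
      Pool.Agent.H447R2.ML.roughPart_eq_self (by norm_num) fun q hq h => by
        rw [(Nat.prime_dvd_prime_iff_eq hq (by norm_num)).1 h]; norm_num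
    have e2 : roughPart 3 5 = 5 :=
      Pool.Agent.H447R2.ML.roughPart_eq_self (by norm_num) fun q hq h => by
        rw [(Nat.prime_dvd_prime_iff_eq hq (by norm_num)).1 h]; norm_num
    have e3 : sol 1 = (7, 5) := rfl
    rw [e3]
    simp only [show 2 * 1 + 1 = 3 by norm_num, e1, e2, and_self]
  · have h5 : 5 ≤ 2 * k + 1 := by omega
    have hd8 : ¬ (2 * k + 1) ∣ 2 ^ 2 + 4 := by
      intro h
      have h8 : (2 * k + 1) ∣ 2 ^ 3 := by simpa using h
      have := (Nat.prime_dvd_prime_iff_eq hl Nat.prime_two).1 (hl.dvd_of_dvd_pow h8)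
      omega
    have hd2 : ¬ (2 * k + 1) ∣ 2 := fun h => by
      have := Nat.le_of_dvd (by norm_num) h
      omega
    constructor
    · have e1 : roughPart (2 * k + 1) (sol k).1 = (sol k).1 := by
        refine Pool.Agent.H447R2.ML.roughPart_eq_self hpos.1.ne' fun q hq h => ?_
        refine Pool.Agent.H447R2.ML.lt_of_dvd_V 2 hl h5 hd2 hq (fun h' => ?_) (by
          rw [V_sol]; exact h.mul_left 2)
        rw [(Nat.prime_dvd_prime_iff_eq hq Nat.prime_two).1 h'] at h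
        have := sol_odd k
        omega
      rw [e1]
    · have e2 : roughPart (2 * k + 1) (sol k).2 = (sol k).2 := by
        refine Pool.Agent.H447R2.ML.roughPart_eq_self hpos.2.ne' fun q hq h => ?_
        exact Pool.Agent.H447R2.ML.lt_of_dvd_U 2 hl h5 hd8 hq (by rw [U_sol]; exact h)
      rw [e2]

/-- the integer points with a prime first coordinate -/
lemma link (p r : ℕ) : (p.Prime ∧ p ^ 2 + 1 = 2 * r ^ 2) ↔
    (p.Prime ∧ ∃ l : ℕ, l.Prime ∧ l ≠ 2 ∧ x 1 l = p ∧ y 1 l = r) := by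
  constructor
  · rintro ⟨hp, h⟩
    obtain ⟨k, hk⟩ := sol_all r p h
    have h1 := sol_real k
    have h2 := prime_index (k := k) (by rw [hk]; exact hp)
    rw [hk] at h1
    exact ⟨hp, 2 * k + 1, h2, by omega, h1.1, h1.2⟩
  · rintro ⟨hp, l, hl, hl2, hx, hy⟩
    obtain ⟨k, hk⟩ := hl.odd_of_ne_two hl2
    subst hk
    obtain ⟨h1, h2⟩ := sol_real k
    rw [h1] at hx
    rw [h2] at hy
    have e1 : (sol k).1 = p := by exact_mod_cast hx
    have e2 : (sol k).2 = r := by exact_mod_cast hy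
    refine ⟨hp, ?_⟩
    rw [← e1, ← e2]
    exact sol_eq k

lemma x_pert {ρ : ℝ} (hρ : 0 < ρ) (n : ℕ) :
    x ρ n = 1 / 2 * ρ * α ^ n + (-(1 / (2 * ρ))) / α ^ n := by
  have h1 : α ^ n ≠ 0 := by have := alpha_pos; positivity
  unfold x
  field_simp
  ring

lemma y_pert {ρ : ℝ} (hρ : 0 < ρ) (n : ℕ) :
    y ρ n = 1 / (2 * Real.sqrt 2) * ρ * α ^ n + (1 / (2 * Real.sqrt 2 * ρ)) / α ^ n := by
  have h1 : α ^ n ≠ 0 := by have := alpha_pos; positivity
  have h2 := s2_pos.ne'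
  unfold y
  field_simp

lemma dio (a b : ℕ) (ha : 1 ≤ a) (hb : 1 ≤ b) :
    1 ≤ |(a : ℝ) - b * Real.sqrt 2| * (2 * (a + b)) := by
  have hb1 : (1 : ℝ) ≤ b := by exact_mod_cast hb
  have ha1 : (1 : ℝ) ≤ a := by exact_mod_cast ha
  have h1 : (1 : ℝ) ≤ |(a : ℝ) ^ 2 - 2 * (b : ℝ) ^ 2| := by
    have h2 : ((a : ℤ) ^ 2 - 2 * (b : ℤ) ^ 2) ≠ 0 := by
      intro h
      have h3 : (a : ℝ) ^ 2 = 2 * (b : ℝ) ^ 2 := by
        have : (a : ℤ) ^ 2 = 2 * (b : ℤ) ^ 2 := by linarith
        exact_mod_cast this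
      refine (irrational_sqrt_natCast_iff (n := 2)).2 ?_ ⟨(a : ℚ) / b, ?_⟩
      · rintro ⟨c, hc⟩
        rcases Nat.lt_or_ge c 2 with h | h
        · interval_cases c <;> omega
        · nlinarith
      · push_cast
        rw [div_eq_iff (by positivity)]
        have h4 : ((a : ℝ) - Real.sqrt 2 * b) * (a + Real.sqrt 2 * b) = 0 := by
          nlinarith [s2_sq]
        rcases mul_eq_zero.1 h4 with h5 | h5
        · linarith
        · have := s2_pos
          have : 0 < Real.sqrt 2 * b := by positivity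
          linarith
    have h4 := Int.one_le_abs h2
    exact_mod_cast h4
  have h2 : (a : ℝ) ^ 2 - 2 * (b : ℝ) ^ 2 = (a - b * Real.sqrt 2) * (a + b * Real.sqrt 2) := by
    nlinarith [s2_sq]
  have hs := s2_pos
  rw [h2, abs_mul, abs_of_nonneg (show 0 ≤ (a : ℝ) + b * Real.sqrt 2 by positivity)] at h1
  refine h1.trans (mul_le_mul_of_nonneg_left ?_ (abs_nonneg _))
  nlinarith [s2_le]

/-- the law for the two coordinates -/
lemma law {z : ℝ → ℕ → ℝ} (hz : z = x ∨ z = y) (S : Set ℕ) :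
    ∀ᵐ ρ : ℝ, 0 < ρ → Pool.Agent.TH888.R.Pt (fun p => ⌊z ρ p⌋₊)
      (Real.exp Real.eulerMascheroniConstant / Real.log α) S := by
  rcases hz with rfl | rfl
  · filter_upwards [Pool.Agent.Helper523_NSW.pert_law one_lt_alpha alpha_add alpha_mul S
      (c := 1 / 2) (by norm_num) (fun ρ => -(1 / (2 * ρ)))] with ρ h h0
    refine Pool.Agent.Helper523_NSW.pt_congr (P := 0) (fun p _ => ?_) (h h0)
    rw [x_pert h0]
  · filter_upwards [Pool.Agent.Helper523_NSW.pert_law one_lt_alpha alpha_add alpha_mul S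
      (c := 1 / (2 * Real.sqrt 2)) (by have := s2_pos; positivity)
      (fun ρ => 1 / (2 * Real.sqrt 2 * ρ))] with ρ h h0
    refine Pool.Agent.Helper523_NSW.pt_congr (P := 0) (fun p _ => ?_) (h h0)
    rw [y_pert h0]

/-- the two values are both prime only finitely often -/
lemma both : ∀ᵐ ρ : ℝ, 0 < ρ → {n : ℕ | (W (x ρ) n).Prime ∧ (W (y ρ) n).Prime}.Finite := by
  have hs := s2_pos
  have hlc : Real.sqrt 2 * (1 / (2 * Real.sqrt 2)) = 1 / 2 := by field_simp
  filter_upwards [Pool.Agent.Helper523_NSW.both_law one_lt_alpha one_le_s2 one_le_two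
    (fun a b ha hb => dio a b ha hb) (c := 1 / (2 * Real.sqrt 2)) (by positivity)
    (fun ρ => -(1 / (2 * ρ))) (fun ρ => 1 / (2 * Real.sqrt 2 * ρ))] with ρ h h0
  obtain ⟨Q, hQ⟩ := h h0
  refine (Set.finite_lt_nat Q).subset fun n hn => ?_
  by_contra hc
  have hQn : Q ≤ n := not_lt.1 hc
  refine hQ n hQn ?_
  rw [hlc, ← x_pert h0, ← y_pert h0]
  exact hn

end Pool.Agent.Helper523_NSW.A
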