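import Mathlib
import Pool.Agent.H500R2.Brun2
import Pool.Agent.H500R2.Base

set_option autoImplicit false

/-!
# Exponential moments of the number of prime factors in a set
-/

namespace Pool.Agent.Helper523_NSW.Fer

open Finset Filter Topology
open Pool.Agent.H500R2 (PP L mem_PP mertens_L)

/-- the primes in `(y, P]` -/
def S (y P : ℕ) : Finset ℕ := (PP P).filter (fun p => y < p)

lemma mem_S {y P p : ℕ} : p ∈ S y P ↔ p.Prime ∧ p ≤ P ∧ y < p := by
  unfold S
  rw [mem_filter, mem_PP, and_assoc]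

/-- the number of the members of `T` that divide `n` -/
def om (T : Finset ℕ) (n : ℕ) : ℕ := (T.filter (fun p => p ∣ n)).card

lemma sum_S {y P : ℕ} (h : y ≤ P) : ∑ p ∈ S y P, (1 : ℝ) / p = L P - L y := by
  have h1 : PP P = PP y ∪ S y P := by
    ext p
    rw [mem_union, mem_PP, mem_PP, mem_S]
    constructor
    · rintro ⟨h1, h2⟩
      by_cases h3 : p ≤ y
      · exact Or.inl ⟨h1, h3⟩
      · exact Or.inr ⟨h1, h2, by omega⟩
    · rintro (⟨h1, h2⟩ | ⟨h1, h2, _⟩)
      · exact ⟨h1, h2.trans h⟩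
      · exact ⟨h1, h2⟩
  have h2 : Disjoint (PP y) (S y P) := by
    rw [disjoint_left]
    intro p hp hq
    rw [mem_PP] at hp
    rw [mem_S] at hq
    omega
  unfold L
  rw [h1, sum_union h2]
  ring

/-- lower tail: exponential moment -/
lemma low_moment {s : ℝ} (hs0 : 0 ≤ s) (hs1 : s ≤ 1) {T : Finset ℕ} (hT : ∀ p ∈ T, p.Prime) {P R : ℕ}
    (hR : Even R) (hP : ∀ p ∈ T, p ≤ P) (hP1 : 1 ≤ P) (A H : ℕ) (hH : P ^ R ≤ H) :
    ∑ m ∈ Ico A (A + H), (1 - s) ^ (om T m) ≤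
      (H : ℝ) * (Real.exp (-(s * ∑ p ∈ T, (1 : ℝ) / p)) +
        Real.exp (Real.exp 1 * (s * ∑ p ∈ T, (1 : ℝ) / p) - (R + 1)) +
        6 * ((P : ℝ) ^ R / H) * Real.exp (s * ∑ p ∈ T, (1 : ℝ) / p)) := by
  classical
  have hPR : 1 ≤ P ^ R := Nat.one_le_pow _ _ hP1
  have hH0 : (0 : ℝ) < H := by exact_mod_cast lt_of_lt_of_le hPR hH
  have h := Pool.Agent.H500R2.brun (fun p m _ => if p ∣ m then s else 0)
    (fun p m n => by split_ifs <;> linarith)
    (fun p m n => by split_ifs <;> linarith)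
    (fun p m n => by simp only [Nat.dvd_mod_iff (dvd_refl p)])
    (fun p => s * (1 / (p : ℝ))) (fun p => by positivity)
    (fun p => by
      rcases Nat.eq_zero_or_pos p with rfl | hp
      · simp
      · have h1 : (1 : ℝ) ≤ p := by exact_mod_cast hp
        have h2 : 1 / (p : ℝ) ≤ 1 := by rw [div_le_one (by linarith)]; exact h1
        have h3 : 0 ≤ 1 / (p : ℝ) := by positivity
        nlinarith)
    T hT
    (fun p hp => by
      have hp0 : 0 < p := (hT p hp).pos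
      have hpr : (0 : ℝ) < p := by exact_mod_cast hp0
      have h1 : ∀ a ∈ range p, ∑ b ∈ range p, (if p ∣ a then s else (0 : ℝ)) = if a = 0 then p * s else 0 := by
        intro a ha
        rw [mem_range] at ha
        rw [sum_const, card_range, nsmul_eq_mul]
        by_cases h0 : a = 0
        · rw [if_pos (h0 ▸ dvd_zero p), if_pos h0]
        · rw [if_neg (fun hd => absurd (Nat.le_of_dvd (Nat.pos_of_ne_zero h0) hd) (by omega)), if_neg h0,
            mul_zero]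
      rw [sum_congr rfl h1, sum_ite_eq' (range p) 0, if_pos (mem_range.2 hp0)]
      field_simp)
    P R hR hP hP1 A H 0 H hH hH
  have e1 : ∀ m, ∏ p ∈ T, (1 - (if p ∣ m then s else (0 : ℝ))) = (1 - s) ^ (om T m) := by
    intro m
    unfold om
    rw [← prod_const, prod_filter]
    refine prod_congr rfl fun p _ => ?_
    by_cases hd : p ∣ m
    · rw [if_pos hd, if_pos hd]
    · rw [if_neg hd, if_neg hd, sub_zero]
  have e2 : ∑ p ∈ T, s * (1 / (p : ℝ)) = s * ∑ p ∈ T, (1 : ℝ) / p := by rw [mul_sum]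
  simp only [e1, e2, sum_const, Nat.card_Ico, zero_add, tsub_zero, nsmul_eq_mul] at h
  rw [← mul_sum] at h
  have h5 : (H : ℝ) * ∑ m ∈ Ico A (A + H), (1 - s) ^ (om T m) ≤ H * ((H : ℝ) *
      (Real.exp (-(s * ∑ p ∈ T, (1 : ℝ) / p)) +
        Real.exp (Real.exp 1 * (s * ∑ p ∈ T, (1 : ℝ) / p) - (R + 1)) +
        6 * ((P : ℝ) ^ R / H) * Real.exp (s * ∑ p ∈ T, (1 : ℝ) / p))) := by
    refine h.trans (le_of_eq ?_)
    ring
  exact le_of_mul_le_mul_left h5 hH0

/-- upper tail: exponential moment -/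
lemma up_moment {u : ℝ} (hu : 0 ≤ u) {T : Finset ℕ} (hT : ∀ p ∈ T, p.Prime) (H : ℕ) :
    ∑ n ∈ Icc 1 H, (1 + u) ^ (om T n) ≤ (H : ℝ) * Real.exp (u * ∑ p ∈ T, (1 : ℝ) / p) := by
  classical
  have e1 : ∀ n, (1 + u) ^ (om T n) = ∑ J ∈ T.powerset, if (∏ p ∈ J, p) ∣ n then u ^ J.card else 0 := by
    intro n
    unfold om
    rw [add_comm, ← prod_const, prod_add_one, ← sum_filter]
    have h1 : T.powerset.filter (fun J => (∏ p ∈ J, p) ∣ n) = (T.filter (fun p => p ∣ n)).powerset := by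
      ext J
      rw [mem_filter, mem_powerset, mem_powerset]
      constructor
      · rintro ⟨h1, h2⟩ p hp
        rw [mem_filter]
        exact ⟨h1 hp, (dvd_prod_of_mem _ hp).trans h2⟩
      · intro h1
        refine ⟨fun p hp => (mem_filter.1 (h1 hp)).1, ?_⟩
        refine Finset.prod_primes_dvd n (fun p hp => (hT p (mem_filter.1 (h1 hp)).1).prime) fun p hp =>
          (mem_filter.1 (h1 hp)).2
    rw [h1]
    refine sum_congr rfl fun J _ => ?_
    rw [prod_const]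
  simp only [e1]
  rw [sum_comm]
  have e2 : ∀ J ∈ T.powerset, ∑ n ∈ Icc 1 H, (if (∏ p ∈ J, p) ∣ n then u ^ J.card else 0) ≤
      (H : ℝ) * ∏ p ∈ J, (u * (1 / (p : ℝ))) := by
    intro J hJ
    rw [mem_powerset] at hJ
    have hd : 0 < ∏ p ∈ J, p := prod_pos fun p hp => (hT p (hJ hp)).pos
    rw [← sum_filter, sum_const, nsmul_eq_mul]
    have h1 : ((Icc 1 H).filter (fun n => (∏ p ∈ J, p) ∣ n)).card = H / ∏ p ∈ J, p := by
      rw [← Nat.Ioc_filter_dvd_card_eq_div]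
      congr 1
    rw [h1, prod_mul_distrib, prod_const]
    have h2 : ((H / ∏ p ∈ J, p : ℕ) : ℝ) ≤ (H : ℝ) / ((∏ p ∈ J, p : ℕ) : ℝ) := Nat.cast_div_le
    have h3 : ∏ p ∈ J, (1 / (p : ℝ)) = 1 / ((∏ p ∈ J, p : ℕ) : ℝ) := by
      rw [prod_div_distrib, prod_const_one, Nat.cast_prod]
    rw [h3]
    calc ((H / ∏ p ∈ J, p : ℕ) : ℝ) * u ^ J.card ≤ (H : ℝ) / ((∏ p ∈ J, p : ℕ) : ℝ) * u ^ J.card :=
          mul_le_mul_of_nonneg_right h2 (by positivity)
      _ = _ := by ring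
  refine (sum_le_sum e2).trans ?_
  rw [← mul_sum, ← prod_add_one]
  refine mul_le_mul_of_nonneg_left ?_ (Nat.cast_nonneg _)
  rw [mul_sum, Real.exp_sum]
  refine prod_le_prod (fun p _ => by positivity) fun p _ => ?_
  exact Real.add_one_le_exp _

end Pool.Agent.Helper523_NSW.Fer
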