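import Mathlib
import Pool.Agent.Helper523_NSW.FerA
import Pool.Agent.Helper523_NSW.Ae

set_option autoImplicit false

/-!
# From integers to almost every amplitude
-/

namespace Pool.Agent.Helper523_NSW.Fer

open Finset Filter Topology MeasureTheory
open Pool.Agent.H500R2 (PP L mem_PP mertens_L)

/-- Markov for the lower tail -/
lemma low_card {z : ℝ} (hz0 : 0 < z) (hz1 : z ≤ 1) (T I : Finset ℕ) (a : ℝ) {B : ℝ}
    (h : ∑ n ∈ I, z ^ (om T n) ≤ B) :
    (((I.filter (fun n => (om T n : ℝ) ≤ a)).card : ℕ) : ℝ) ≤ z ^ (-a) * B := by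
  have h1 : (((I.filter (fun n => (om T n : ℝ) ≤ a)).card : ℕ) : ℝ) * z ^ a ≤ B := by
    refine le_trans ?_ h
    rw [← nsmul_eq_mul, ← sum_const]
    refine (sum_le_sum fun n hn => ?_).trans
      (sum_le_sum_of_subset_of_nonneg (filter_subset _ _) fun n _ _ => by positivity)
    rw [mem_filter] at hn
    rw [← Real.rpow_natCast]
    exact Real.rpow_le_rpow_of_exponent_ge hz0 hz1 hn.2
  have h2 : 0 < z ^ a := Real.rpow_pos_of_pos hz0 a
  rw [Real.rpow_neg hz0.le, inv_mul_eq_div, le_div_iff₀ h2]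
  exact h1

/-- Markov for the upper tail -/
lemma up_card {z : ℝ} (hz1 : 1 ≤ z) (T I : Finset ℕ) (a : ℝ) {B : ℝ}
    (h : ∑ n ∈ I, z ^ (om T n) ≤ B) :
    (((I.filter (fun n => a ≤ (om T n : ℝ))).card : ℕ) : ℝ) ≤ z ^ (-a) * B := by
  have hz0 : 0 < z := by linarith
  have h1 : (((I.filter (fun n => a ≤ (om T n : ℝ))).card : ℕ) : ℝ) * z ^ a ≤ B := by
    refine le_trans ?_ h
    rw [← nsmul_eq_mul, ← sum_const]
    refine (sum_le_sum fun n hn => ?_).trans
      (sum_le_sum_of_subset_of_nonneg (filter_subset _ _) fun n _ _ => by positivity)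
    rw [mem_filter] at hn
    rw [← Real.rpow_natCast]
    exact Real.rpow_le_rpow_of_exponent_le hz1 hn.2
  have h2 : 0 < z ^ a := Real.rpow_pos_of_pos hz0 a
  rw [Real.rpow_neg hz0.le, inv_mul_eq_div, le_div_iff₀ h2]
  exact h1

open Classical in
/-- the measure of the amplitudes with a bad integer -/
lemma vol_bad (M X : ℕ) (hX : 0 < X) (Bad : ℕ → Prop) {D : ℝ}
    (hD : ((((Icc 1 (M * X + 1)).filter Bad).card : ℕ) : ℝ) ≤ X * D) :
    (volume.restrict (Set.Ioc (0 : ℝ) M)) {β | Bad (⌊β * X⌋₊ + 1)} ≤ ENNReal.ofReal D := by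
  have hX0 : (0 : ℝ) < X := by exact_mod_cast hX
  rw [Measure.restrict_apply' measurableSet_Ioc]
  have hsub : {β : ℝ | Bad (⌊β * X⌋₊ + 1)} ∩ Set.Ioc (0 : ℝ) M ⊆
      ⋃ n ∈ (Icc 1 (M * X + 1)).filter Bad, Set.Ico (((n : ℝ) - 1) / X) ((n : ℝ) / X) := by
    rintro β ⟨h1, h2, h3⟩
    have h4 : 0 ≤ β * X := by positivity
    have h5 := Nat.floor_le h4
    have h6 := Nat.lt_floor_add_one (β * X)
    simp only [Set.mem_iUnion]
    refine ⟨⌊β * X⌋₊ + 1, ?_, ?_⟩
    · rw [mem_filter, mem_Icc]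
      refine ⟨⟨by omega, ?_⟩, h1⟩
      have : ⌊β * X⌋₊ ≤ M * X := by
        refine Nat.floor_le_of_le ?_
        push_cast
        exact mul_le_mul_of_nonneg_right h3 hX0.le
      omega
    · push_cast
      constructor
      · rw [div_le_iff₀ hX0]; linarith
      · rw [lt_div_iff₀ hX0]; linarith
  refine (measure_mono hsub).trans ((measure_biUnion_finset_le _ _).trans ?_)
  have hvol : ∀ n ∈ (Icc 1 (M * X + 1)).filter Bad,
      volume (Set.Ico (((n : ℝ) - 1) / X) ((n : ℝ) / X)) = ENNReal.ofReal (1 / X) := by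
    intro n _
    rw [Real.volume_Ico]
    congr 1
    ring
  rw [Finset.sum_congr rfl hvol, Finset.sum_const, nsmul_eq_mul, ← ENNReal.ofReal_natCast,
    ← ENNReal.ofReal_mul (Nat.cast_nonneg _)]
  refine ENNReal.ofReal_le_ofReal ?_
  rw [mul_one_div, div_le_iff₀ hX0]
  linarith

/-- the sum of the reciprocals of the primes in `(2 ^ (m + 1), P]` -/
lemma sum_bounds : ∃ C : ℝ, 0 ≤ C ∧ ∀ m P : ℕ, 1 ≤ m → 2 ^ (m + 1) ≤ P →
    |∑ p ∈ S (2 ^ (m + 1)) P, (1 : ℝ) / p -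
      (Real.log (Real.log P) - Real.log (Real.log 2) - Real.log (m + 1))| ≤ C := by
  obtain ⟨C, hC, h⟩ := mertens_L
  refine ⟨2 * C, by positivity, fun m P hm hP => ?_⟩
  have h4 : 2 ^ 2 ≤ 2 ^ (m + 1) := Nat.pow_le_pow_right two_pos (by omega)
  have h1 := h (2 ^ (m + 1)) (by omega)
  have h2 := h P (by omega)
  rw [sum_S hP]
  have hl2 : 0 < Real.log 2 := Real.log_pos one_lt_two
  have h3 : Real.log (Real.log ((2 ^ (m + 1) : ℕ) : ℝ)) = Real.log (m + 1) + Real.log (Real.log 2) := by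
    push_cast
    rw [Real.log_pow]
    push_cast
    rw [Real.log_mul (by positivity) hl2.ne']
  rw [h3] at h1
  rw [abs_le] at *
  constructor <;> linarith [h1.1, h1.2, h2.1, h2.2]

end Pool.Agent.Helper523_NSW.Fer
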