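import Mathlib
import Pool.Agent.Helper523_NSW.FerB

set_option autoImplicit false

/-!
# The two tails
-/

namespace Pool.Agent.Helper523_NSW.Fer

open Finset Filter Topology MeasureTheory
open Pool.Agent.H500R2 (PP L mem_PP mertens_L)

/-- the number of the primes larger than `2 ^ (m + 1)` that divide `n` -/
def cnt (m n : ℕ) : ℕ := (n.primeFactors.filter (fun q => 2 ^ (m + 1) < q)).card

lemma om_le_cnt (m P n : ℕ) (hn : n ≠ 0) : om (S (2 ^ (m + 1)) P) n ≤ cnt m n := by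
  unfold om cnt
  refine card_le_card fun p hp => ?_
  rw [mem_filter, mem_S] at hp
  rw [mem_filter, Nat.mem_primeFactors]
  exact ⟨⟨hp.1.1, hp.2, hn⟩, hp.1.2.2⟩

lemma cnt_le_om (m H n : ℕ) (hn : n ≠ 0) (hH : n ≤ H) : cnt m n ≤ om (S (2 ^ (m + 1)) H) n := by
  unfold om cnt
  refine card_le_card fun p hp => ?_
  rw [mem_filter, Nat.mem_primeFactors] at hp
  rw [mem_filter, mem_S]
  exact ⟨⟨hp.1.1, (Nat.le_of_dvd (Nat.pos_of_ne_zero hn) hp.1.2.1).trans hH, hp.2⟩, hp.1.2.1⟩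

lemma key_ineq {z : ℝ} (hz : 0 < z) (hz1 : z ≠ 1) : -(z * Real.log z) < 1 - z := by
  have h1 : Real.log z⁻¹ < z⁻¹ - 1 :=
    Real.log_lt_sub_one_of_pos (by positivity) (fun h => hz1 (inv_eq_one.1 h))
  rw [Real.log_inv] at h1
  have h2 := mul_lt_mul_of_pos_left h1 hz
  rw [mul_sub, mul_inv_cancel₀ hz.ne'] at h2
  linarith

lemma summable_w {θ : ℝ} (h0 : 0 ≤ θ) (h1 : θ < 1) : Summable (fun m : ℕ => ((m : ℝ) + 1) * θ ^ m) := by
  have h2 : Summable (fun m : ℕ => (m : ℝ) ^ 1 * θ ^ m) :=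
    summable_pow_mul_geometric_of_norm_lt_one 1 (by rw [Real.norm_of_nonneg h0]; exact h1)
  have h3 := h2.add (summable_geometric_of_lt_one h0 h1)
  refine h3.congr fun m => ?_
  rw [pow_one]; ring

/-- the lower tail -/
theorem low {b : ℕ} (hb : 2 ≤ b) {c : ℝ} (hc0 : 0 < c) (hc : c < Real.log 2) {M : ℕ} (hM : 1 ≤ M) :
    ∀ᵐ β ∂(volume.restrict (Set.Ioc (0 : ℝ) M)), ∃ Q : ℕ, ∀ m ≥ Q,
      c * m < cnt m (⌊β * ((b ^ 2 ^ m : ℕ) : ℝ)⌋₊ + 1) := by
  classical
  have hl2 : 0 < Real.log 2 := Real.log_pos one_lt_two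
  have hl21 : Real.log 2 ≤ 1 := by linarith [Real.log_two_lt_d9]
  obtain ⟨C, hC, hσ⟩ := sum_bounds
  set z := c / Real.log 2 with hz
  have hz0 : 0 < z := by positivity
  have hz1 : z < 1 := by rw [hz, div_lt_one hl2]; exact hc
  have hcz : c = z * Real.log 2 := by rw [hz]; field_simp
  set s := 1 - z with hs
  have hs0 : 0 < s := by linarith
  have hs1 : s ≤ 1 := by linarith
  set g := -(z * Real.log z) with hg
  have hg1 : g < s := key_ineq hz0 hz1.ne
  have hg0 : 0 ≤ g := by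
    have : Real.log z ≤ 0 := Real.log_nonpos hz0.le hz1.le
    rw [hg]; nlinarith
  set δ := (s - g) / (2 * s) with hδ
  have hδ0 : 0 < δ := div_pos (by linarith) (by linarith)
  have hδ1 : δ ≤ 1 / 2 := by rw [hδ, div_le_div_iff₀ (by linarith) (by norm_num)]; nlinarith
  have hsδ : s * (1 - δ) = (s + g) / 2 := by rw [hδ]; field_simp; ring
  set q := Real.exp (-(s * (1 - δ) * Real.log 2)) with hq
  set θ := Real.exp (-(c * Real.log z) - s * (1 - δ) * Real.log 2) with hθ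
  have hθ1 : θ < 1 := by
    rw [hθ, Real.exp_lt_one_iff] <;> skip
    rw [hsδ, hcz]
    have : -(z * Real.log 2 * Real.log z) = g * Real.log 2 := by rw [hg]; ring
    rw [this]
    nlinarith
  have hθ0 : 0 ≤ θ := (Real.exp_pos _).le
  set K := 2 * Real.exp C + 7 with hK
  have hK0 : 0 ≤ K := by positivity
  -- the conditions for large `m`
  have ev1 : ∀ᶠ m : ℕ in atTop, 1 ≤ ⌊δ * m⌋₊ := by
    filter_upwards [tendsto_natCast_atTop_atTop.eventually_ge_atTop (1 / δ)] with m hm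
    rw [Nat.one_le_floor_iff]
    rw [div_le_iff₀ hδ0] at hm
    linarith
  have ev2 : ∀ᶠ m : ℕ in atTop, 4 * (m : ℝ) + 3 * C ≤ 2 ^ ⌊δ * m⌋₊ := by
    have h1 : Tendsto (fun m : ℕ => (m : ℝ) ^ 1 / (2 ^ δ : ℝ) ^ m) atTop (𝓝 0) :=
      tendsto_pow_const_div_const_pow_of_one_lt 1 (Real.one_lt_rpow one_lt_two hδ0)
    have h2 : ∀ᶠ m : ℕ in atTop, (m : ℝ) ^ 1 / (2 ^ δ : ℝ) ^ m < 1 / (2 * (4 + 3 * C)) :=
      h1.eventually (gt_mem_nhds (by positivity))
    filter_upwards [h2, eventually_ge_atTop 1] with m hm hm1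
    have hm1' : (1 : ℝ) ≤ m := by exact_mod_cast hm1
    rw [pow_one, div_lt_div_iff₀ (by positivity) (by positivity), one_mul] at hm
    have h3 : (2 : ℝ) ^ (δ * m) ≤ 2 ^ ((⌊δ * m⌋₊ : ℝ) + 1) :=
      Real.rpow_le_rpow_of_exponent_le one_le_two (Nat.lt_floor_add_one _).le
    rw [Real.rpow_add two_pos, Real.rpow_one, Real.rpow_natCast, Real.rpow_mul two_pos.le,
      Real.rpow_natCast] at h3
    nlinarith
  have ev3 : ∀ᶠ m : ℕ in atTop, 2 * (m : ℝ) + C ≤ 2 ^ (m - 1) * Real.log 2 := by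
    have h1 : Tendsto (fun m : ℕ => (m : ℝ) ^ 1 / (2 : ℝ) ^ m) atTop (𝓝 0) :=
      tendsto_pow_const_div_const_pow_of_one_lt 1 one_lt_two
    have h2 : ∀ᶠ m : ℕ in atTop, (m : ℝ) ^ 1 / (2 : ℝ) ^ m < Real.log 2 / (2 * (2 + C)) :=
      h1.eventually (gt_mem_nhds (by positivity))
    filter_upwards [h2, eventually_ge_atTop 1] with m hm hm1
    have hm1' : (1 : ℝ) ≤ m := by exact_mod_cast hm1
    obtain ⟨j, rfl⟩ := Nat.exists_eq_add_of_le' hm1
    rw [pow_one, div_lt_div_iff₀ (by positivity) (by positivity), pow_succ] at hm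
    rw [Nat.add_sub_cancel]
    nlinarith
  have ev4 : ∀ᶠ m : ℕ in atTop, m + 1 ≤ 2 ^ (m - 1 - ⌊δ * m⌋₊) := by
    have h1 : Tendsto (fun m : ℕ => (m : ℝ) ^ 1 / (2 ^ (1 / 2 : ℝ) : ℝ) ^ m) atTop (𝓝 0) :=
      tendsto_pow_const_div_const_pow_of_one_lt 1 (Real.one_lt_rpow one_lt_two (by norm_num))
    have h2 : ∀ᶠ m : ℕ in atTop, (m : ℝ) ^ 1 / (2 ^ (1 / 2 : ℝ) : ℝ) ^ m < 1 / 8 :=
      h1.eventually (gt_mem_nhds (by norm_num))
    filter_upwards [h2, eventually_ge_atTop 2] with m hm hm1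
    have hm1' : (2 : ℝ) ≤ m := by exact_mod_cast hm1
    rw [pow_one, div_lt_div_iff₀ (by positivity) (by norm_num), one_mul] at hm
    have h3 : (⌊δ * m⌋₊ : ℝ) ≤ m / 2 := by
      refine (Nat.floor_le (by positivity)).trans ?_
      nlinarith
    have h4 : ⌊δ * m⌋₊ ≤ m - 1 := by
      have : (⌊δ * m⌋₊ : ℝ) ≤ ((m - 1 : ℕ) : ℝ) := by
        rw [Nat.cast_sub (by omega)]; push_cast; linarith
      exact_mod_cast this
    have h5 : (1 / 2 : ℝ) * m ≤ ((m - 1 - ⌊δ * m⌋₊ : ℕ) : ℝ) + 1 := by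
      rw [Nat.cast_sub h4, Nat.cast_sub (by omega)]; push_cast; linarith
    have h6 : (2 : ℝ) ^ ((1 / 2 : ℝ) * m) ≤ 2 ^ (((m - 1 - ⌊δ * m⌋₊ : ℕ) : ℝ) + 1) :=
      Real.rpow_le_rpow_of_exponent_le one_le_two h5
    rw [Real.rpow_add two_pos, Real.rpow_one, Real.rpow_natCast, Real.rpow_mul two_pos.le,
      Real.rpow_natCast] at h6
    have h7 : ((m + 1 : ℕ) : ℝ) ≤ ((2 ^ (m - 1 - ⌊δ * m⌋₊) : ℕ) : ℝ) := by
      push_cast
      nlinarith
    exact_mod_cast h7
  obtain ⟨Q0, hQ0⟩ := eventually_atTop.1 (ev1.and (ev2.and (ev3.and ev4)))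
  have main : ∀ m ≥ max Q0 2, (volume.restrict (Set.Ioc (0 : ℝ) M))
      {β | (om (S (2 ^ (m + 1)) (2 ^ 2 ^ (m - 1 - ⌊δ * m⌋₊))) (⌊β * ((b ^ 2 ^ m : ℕ) : ℝ)⌋₊ + 1) : ℝ) ≤ c * m} ≤
      ENNReal.ofReal (((M : ℝ) + 1) * K * (((m : ℝ) + 1) * θ ^ m)) := by
    intro m hm
    obtain ⟨h1, h2, h3, h4⟩ := hQ0 m (le_trans (le_max_left _ _) hm)
    have hm2 : 2 ≤ m := le_trans (le_max_right _ _) hm
    have hm2' : (2 : ℝ) ≤ m := by exact_mod_cast hm2
    set r := ⌊δ * m⌋₊ with hr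
    set k := m - 1 - r with hk
    have hrδ : (r : ℝ) ≤ δ * m := Nat.floor_le (by positivity)
    have hrm : r ≤ m - 1 := by
      have : (r : ℝ) ≤ ((m - 1 : ℕ) : ℝ) := by
        rw [Nat.cast_sub (by omega)]; push_cast; nlinarith
      exact_mod_cast this
    have hkr : k + r = m - 1 := by omega
    have hkr' : (k : ℝ) + r = m - 1 := by
      have : ((k + r : ℕ) : ℝ) = ((m - 1 : ℕ) : ℝ) := by rw [hkr]
      rw [Nat.cast_sub (by omega)] at this
      push_cast at this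
      linarith
    have hk1 : (1 - δ) * m - 1 ≤ k := by linarith
    have hkm : (k : ℝ) ≤ m := by
      have : (0 : ℝ) ≤ r := Nat.cast_nonneg r
      linarith
    set P := 2 ^ 2 ^ k with hP
    set R := 2 ^ r with hR
    set X := b ^ 2 ^ m with hX
    have hX0 : 0 < X := by positivity
    have hyP : 2 ^ (m + 1) ≤ P := Nat.pow_le_pow_right two_pos h4
    have hPR : P ^ R = 2 ^ 2 ^ (m - 1) := by
      rw [hP, hR, ← pow_mul, ← pow_add, hkr]
    have hXP : 2 ^ 2 ^ (m - 1) * 2 ^ 2 ^ (m - 1) ≤ X := by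
      rw [← pow_add, ← two_mul, ← pow_succ', show m - 1 + 1 = m by omega]
      exact Nat.pow_le_pow_left hb _
    set σ := ∑ p ∈ S (2 ^ (m + 1)) P, (1 : ℝ) / p with hσd
    have hσ0 : 0 ≤ σ := Finset.sum_nonneg fun p _ => by positivity
    have hσ1 := hσ m P (by omega) hyP
    have hlP : Real.log (Real.log ((P : ℕ) : ℝ)) = k * Real.log 2 + Real.log (Real.log 2) := by
      rw [hP]; push_cast
      rw [Real.log_pow]; push_cast
      rw [Real.log_mul (by positivity) hl2.ne', Real.log_pow]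
    rw [hlP, ← hσd, abs_le] at hσ1
    have hlm : 0 ≤ Real.log ((m : ℝ) + 1) := Real.log_nonneg (by linarith)
    have hσlo : k * Real.log 2 - Real.log (m + 1) - C ≤ σ := by linarith [hσ1.1]
    have hσhi : σ ≤ m + C := by
      have : (k : ℝ) * Real.log 2 ≤ m * 1 := mul_le_mul hkm hl21 hl2.le (by positivity)
      linarith [hσ1.2]
    have hRe : Even R := by
      rw [hR]
      exact (even_two).pow_of_ne_zero (by omega)
    have hHP : P ^ R ≤ M * X + 1 := by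
      rw [hPR]
      have : 1 ≤ 2 ^ 2 ^ (m - 1) := Nat.one_le_two_pow
      nlinarith
    have hmom := low_moment hs0.le hs1 (T := S (2 ^ (m + 1)) P) (fun p hp => (mem_S.1 hp).1) hRe
      (fun p hp => (mem_S.1 hp).2.1) (Nat.one_le_two_pow) 1 (M * X + 1) hHP
    rw [← hσd, show (1 : ℝ) - s = z by rw [hs]; ring] at hmom
    have hIco : Ico 1 (1 + (M * X + 1)) = Icc 1 (M * X + 1) := by
      ext n; rw [mem_Ico, mem_Icc]; omega
    rw [hIco] at hmom
    -- the three terms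
    have hqm : q ^ m = Real.exp (-(s * (1 - δ) * Real.log 2) * m) := by
      rw [hq, ← Real.exp_nat_mul]; ring_nf
    have t1 : Real.exp (-(s * σ)) ≤ 2 * Real.exp C * (m + 1) * q ^ m := by
      have e1 : -(s * σ) ≤ Real.log 2 + C + Real.log (m + 1) + -(s * (1 - δ) * Real.log 2) * m := by
        have a1 : s * (k * Real.log 2 - Real.log (m + 1) - C) ≤ s * σ :=
          mul_le_mul_of_nonneg_left hσlo hs0.le
        have a2 : s * Real.log (m + 1) ≤ Real.log (m + 1) := by nlinarith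
        have a3 : s * C ≤ C := by nlinarith
        have a4 : s * Real.log 2 * ((1 - δ) * m - 1) ≤ s * Real.log 2 * k :=
          mul_le_mul_of_nonneg_left hk1 (by positivity)
        have a5 : s * Real.log 2 ≤ Real.log 2 := by nlinarith
        nlinarith
      calc Real.exp (-(s * σ)) ≤ Real.exp (Real.log 2 + C + Real.log (m + 1) +
            -(s * (1 - δ) * Real.log 2) * m) := Real.exp_le_exp.2 e1
        _ = _ := by
          rw [Real.exp_add, Real.exp_add, Real.exp_add, Real.exp_log two_pos,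
            Real.exp_log (by positivity), hqm]
    have hem : Real.exp (-(m : ℝ)) ≤ q ^ m := by
      rw [hqm]
      refine Real.exp_le_exp.2 ?_
      have a1 : s * (1 - δ) * Real.log 2 ≤ 1 := by
        have : s * (1 - δ) ≤ 1 := by nlinarith
        have h0 : 0 ≤ s * (1 - δ) := by nlinarith
        nlinarith
      nlinarith
    have t2 : Real.exp (Real.exp 1 * (s * σ) - ((R : ℝ) + 1)) ≤ q ^ m := by
      refine le_trans (Real.exp_le_exp.2 ?_) hem
      have a1 : Real.exp 1 ≤ 3 := by linarith [Real.exp_one_lt_d9]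
      have a2 : s * σ ≤ m + C := by nlinarith
      have a3 : Real.exp 1 * (s * σ) ≤ 3 * (m + C) :=
        mul_le_mul a1 a2 (by positivity) (by norm_num)
      have a4 : ((R : ℕ) : ℝ) = 2 ^ r := by rw [hR]; push_cast; ring
      rw [a4]
      linarith
    have t3 : 6 * (((P : ℕ) : ℝ) ^ R / ((M * X + 1 : ℕ) : ℝ)) * Real.exp (s * σ) ≤ 6 * q ^ m := by
      have a1 : ((P : ℕ) : ℝ) ^ R / ((M * X + 1 : ℕ) : ℝ) ≤ 1 / 2 ^ 2 ^ (m - 1) := by
        rw [div_le_div_iff₀ (by positivity) (by positivity)]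
        have a2 : P ^ R * 2 ^ 2 ^ (m - 1) ≤ 1 * (M * X + 1) := by
          rw [hPR]; nlinarith
        exact_mod_cast a2
      have a3 : (1 : ℝ) / 2 ^ 2 ^ (m - 1) = Real.exp (-(2 ^ (m - 1) * Real.log 2)) := by
        rw [Real.exp_neg, one_div]
        congr 1
        rw [mul_comm, Real.exp_mul, Real.exp_log two_pos, ← Real.rpow_natCast]
        congr 1
        push_cast; ring
      rw [mul_assoc]
      refine mul_le_mul_of_nonneg_left ?_ (by norm_num)
      calc ((P : ℕ) : ℝ) ^ R / ((M * X + 1 : ℕ) : ℝ) * Real.exp (s * σ)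
          ≤ Real.exp (-(2 ^ (m - 1) * Real.log 2)) * Real.exp (m + C) := by
            refine mul_le_mul (a1.trans a3.le) (Real.exp_le_exp.2 (by nlinarith)) (Real.exp_pos _).le
              (Real.exp_pos _).le
        _ = Real.exp (-(2 ^ (m - 1) * Real.log 2) + (m + C)) := (Real.exp_add _ _).symm
        _ ≤ Real.exp (-(m : ℝ)) := Real.exp_le_exp.2 (by linarith)
        _ ≤ q ^ m := hem
    have hqm0 : 0 ≤ q ^ m := pow_nonneg (Real.exp_pos _).le _
    have hsum : Real.exp (-(s * σ)) + Real.exp (Real.exp 1 * (s * σ) - ((R : ℝ) + 1)) +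
        6 * (((P : ℕ) : ℝ) ^ R / ((M * X + 1 : ℕ) : ℝ)) * Real.exp (s * σ) ≤ K * ((m + 1) * q ^ m) := by
      have : q ^ m * 1 ≤ q ^ m * (m + 1) := mul_le_mul_of_nonneg_left (by linarith) hqm0
      rw [hK]
      nlinarith
    have hcard := low_card hz0 hz1.le (S (2 ^ (m + 1)) P) (Icc 1 (M * X + 1)) (c * m)
      (hmom.trans (mul_le_mul_of_nonneg_left hsum (Nat.cast_nonneg _)))
    refine vol_bad M X hX0 (fun n => (om (S (2 ^ (m + 1)) P) n : ℝ) ≤ c * m) (hcard.trans ?_)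
    have hzc : z ^ (-(c * m)) * q ^ m = θ ^ m := by
      rw [Real.rpow_def_of_pos hz0, hqm, hθ, ← Real.exp_add, ← Real.exp_nat_mul]
      congr 1
      ring
    have hMX : ((M * X + 1 : ℕ) : ℝ) ≤ X * ((M : ℝ) + 1) := by
      have : (1 : ℝ) ≤ X := by exact_mod_cast hX0
      push_cast
      linarith
    calc z ^ (-(c * m)) * (((M * X + 1 : ℕ) : ℝ) * (K * ((m + 1) * q ^ m)))
        = ((M * X + 1 : ℕ) : ℝ) * (K * ((m + 1) * (z ^ (-(c * m)) * q ^ m))) := by ring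
      _ = ((M * X + 1 : ℕ) : ℝ) * (K * ((m + 1) * θ ^ m)) := by rw [hzc]
      _ ≤ (X * ((M : ℝ) + 1)) * (K * ((m + 1) * θ ^ m)) :=
          mul_le_mul_of_nonneg_right hMX (by positivity)
      _ = _ := by ring
  filter_upwards [bc (summable_w hθ0 hθ1) (fun m => by positivity)
    (by positivity : 0 ≤ ((M : ℝ) + 1) * K) main] with β hβ
  obtain ⟨Q, hQ⟩ := hβ
  refine ⟨Q, fun m hm => ?_⟩
  have h1 := hQ m hm
  simp only [Set.mem_setOf_eq, not_le] at h1
  refine h1.trans_le ?_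
  exact_mod_cast om_le_cnt m _ _ (Nat.succ_ne_zero _)

end Pool.Agent.Helper523_NSW.Fer
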