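import Mathlib
import Pool.Agent.Helper523_NSW.FerC

set_option autoImplicit false

/-!
# The upper tail and the law
-/

namespace Pool.Agent.Helper523_NSW.Fer

open Finset Filter Topology MeasureTheory
open Pool.Agent.H500R2 (PP L mem_PP mertens_L)

/-- the upper tail -/
theorem up {b : ℕ} (hb : 2 ≤ b) {c : ℝ} (hc : Real.log 2 < c) {M : ℕ} (hM : 1 ≤ M) :
    ∀ᵐ β ∂(volume.restrict (Set.Ioc (0 : ℝ) M)), ∃ Q : ℕ, ∀ m ≥ Q,
      (cnt m (⌊β * ((b ^ 2 ^ m : ℕ) : ℝ)⌋₊ + 1) : ℝ) < c * m := by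
  classical
  have hl2 : 0 < Real.log 2 := Real.log_pos one_lt_two
  obtain ⟨C, hC, hσ⟩ := sum_bounds
  have hc0 : 0 < c := hl2.trans hc
  set z := c / Real.log 2 with hz
  have hz1 : 1 < z := by rw [hz, one_lt_div hl2]; exact hc
  have hz0 : 0 < z := by linarith
  have hcz : c = z * Real.log 2 := by rw [hz]; field_simp
  set u := z - 1 with hu
  have hu0 : 0 < u := by linarith
  have hzu : 1 + u = z := by rw [hu]; ring
  set θ := Real.exp (-(c * Real.log z) + u * Real.log 2) with hθ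
  have hθ1 : θ < 1 := by
    rw [hθ, Real.exp_lt_one_iff]
    have h1 := key_ineq hz0 hz1.ne'
    rw [hcz]
    have : -(z * Real.log 2 * Real.log z) + u * Real.log 2 = (-(z * Real.log z) - (1 - z)) * Real.log 2 := by
      rw [hu]; ring
    rw [this]
    nlinarith
  have hθ0 : 0 ≤ θ := (Real.exp_pos _).le
  set B : ℝ := ((M : ℝ) + 1) * b with hB
  have hb' : (2 : ℝ) ≤ b := by exact_mod_cast hb
  have hM' : (1 : ℝ) ≤ M := by exact_mod_cast hM
  have hB4 : 4 ≤ B := by rw [hB]; nlinarith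
  have hlB : 0 < Real.log B := Real.log_pos (by linarith)
  set C1 := Real.log (Real.log B) - Real.log (Real.log 2) + C with hC1
  have main : ∀ m ≥ (1 : ℕ), (volume.restrict (Set.Ioc (0 : ℝ) M))
      {β | c * m ≤ (om (S (2 ^ (m + 1)) (M * b ^ 2 ^ m + 1)) (⌊β * ((b ^ 2 ^ m : ℕ) : ℝ)⌋₊ + 1) : ℝ)} ≤
      ENNReal.ofReal ((((M : ℝ) + 1) * Real.exp (u * C1)) * θ ^ m) := by
    intro m hm
    have hm' : (1 : ℝ) ≤ m := by exact_mod_cast hm
    set X := b ^ 2 ^ m with hX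
    have hX0 : 0 < X := by positivity
    have hXr : (1 : ℝ) ≤ X := by exact_mod_cast hX0
    have h2X : 2 ^ 2 ^ m ≤ X := Nat.pow_le_pow_left hb _
    have hyP : 2 ^ (m + 1) ≤ M * X + 1 := by
      have h1 : m + 1 ≤ 2 ^ m := Nat.lt_two_pow_self
      have h2 : 2 ^ (m + 1) ≤ 2 ^ 2 ^ m := Nat.pow_le_pow_right two_pos h1
      nlinarith
    set σ := ∑ p ∈ S (2 ^ (m + 1)) (M * X + 1), (1 : ℝ) / p with hσd
    have hσ1 := hσ m (M * X + 1) hm hyP
    rw [← hσd, abs_le] at hσ1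
    have hlm : 0 ≤ Real.log ((m : ℝ) + 1) := Real.log_nonneg (by linarith)
    have hH4 : (4 : ℝ) ≤ ((M * X + 1 : ℕ) : ℝ) := by
      have h4 : 4 ≤ X := by
        have : 2 ^ 2 ≤ 2 ^ 2 ^ m := Nat.pow_le_pow_right two_pos (by
          calc 2 = 2 ^ 1 := rfl
            _ ≤ 2 ^ m := Nat.pow_le_pow_right two_pos hm)
        omega
      have : 4 ≤ M * X + 1 := by nlinarith
      exact_mod_cast this
    have hlogH : Real.log ((M * X + 1 : ℕ) : ℝ) ≤ 2 ^ m * Real.log B := by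
      have h1 : ((M * X + 1 : ℕ) : ℝ) ≤ B ^ (2 ^ m) := by
        rw [hB, mul_pow]
        have h2 : (M : ℝ) + 1 ≤ ((M : ℝ) + 1) ^ (2 ^ m) :=
          le_self_pow₀ (by linarith) (by positivity)
        have h3 : (X : ℝ) = (b : ℝ) ^ (2 ^ m) := by rw [hX]; push_cast; ring
        rw [← h3]
        push_cast
        nlinarith
      calc Real.log ((M * X + 1 : ℕ) : ℝ) ≤ Real.log (B ^ (2 ^ m)) :=
            Real.log_le_log (by linarith) h1
        _ = _ := by rw [Real.log_pow]; push_cast; ring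
    have hllH : Real.log (Real.log ((M * X + 1 : ℕ) : ℝ)) ≤ m * Real.log 2 + Real.log (Real.log B) := by
      have h1 : 0 < Real.log ((M * X + 1 : ℕ) : ℝ) := Real.log_pos (by linarith)
      calc Real.log (Real.log ((M * X + 1 : ℕ) : ℝ)) ≤ Real.log (2 ^ m * Real.log B) :=
            Real.log_le_log h1 hlogH
        _ = _ := by rw [Real.log_mul (by positivity) hlB.ne', Real.log_pow]
    have hσhi : σ ≤ m * Real.log 2 + C1 := by rw [hC1]; linarith [hσ1.2]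
    have hmom := up_moment hu0.le (T := S (2 ^ (m + 1)) (M * X + 1)) (fun p hp => (mem_S.1 hp).1)
      (M * X + 1)
    rw [hzu, ← hσd] at hmom
    have hcard := up_card hz1.le (S (2 ^ (m + 1)) (M * X + 1)) (Icc 1 (M * X + 1)) (c * m)
      (hmom.trans (mul_le_mul_of_nonneg_left
        (Real.exp_le_exp.2 (mul_le_mul_of_nonneg_left hσhi hu0.le)) (Nat.cast_nonneg _)))
    refine vol_bad M X hX0 (fun n => c * m ≤ (om (S (2 ^ (m + 1)) (M * X + 1)) n : ℝ)) (hcard.trans ?_)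
    have hzc : z ^ (-(c * m)) * Real.exp (u * (m * Real.log 2 + C1)) = Real.exp (u * C1) * θ ^ m := by
      rw [Real.rpow_def_of_pos hz0, hθ, ← Real.exp_add, ← Real.exp_nat_mul, ← Real.exp_add]
      congr 1
      ring
    have hMX : ((M * X + 1 : ℕ) : ℝ) ≤ X * ((M : ℝ) + 1) := by
      push_cast
      linarith
    calc z ^ (-(c * m)) * (((M * X + 1 : ℕ) : ℝ) * Real.exp (u * (m * Real.log 2 + C1)))
        = ((M * X + 1 : ℕ) : ℝ) * (z ^ (-(c * m)) * Real.exp (u * (m * Real.log 2 + C1))) := by ring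
      _ = ((M * X + 1 : ℕ) : ℝ) * (Real.exp (u * C1) * θ ^ m) := by rw [hzc]
      _ ≤ (X * ((M : ℝ) + 1)) * (Real.exp (u * C1) * θ ^ m) :=
          mul_le_mul_of_nonneg_right hMX (by positivity)
      _ = _ := by ring
  have hae := bc (summable_geometric_of_lt_one hθ0 hθ1) (fun m => by positivity)
    (by positivity : 0 ≤ ((M : ℝ) + 1) * Real.exp (u * C1)) main
  filter_upwards [hae, ae_restrict_mem measurableSet_Ioc] with β hβ hmem
  obtain ⟨Q, hQ⟩ := hβ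
  refine ⟨Q, fun m hm => ?_⟩
  have h1 := hQ m hm
  simp only [Set.mem_setOf_eq, not_le] at h1
  refine lt_of_le_of_lt ?_ h1
  have h2 : ⌊β * ((b ^ 2 ^ m : ℕ) : ℝ)⌋₊ ≤ M * b ^ 2 ^ m := by
    refine Nat.floor_le_of_le ?_
    rw [Nat.cast_mul]
    exact mul_le_mul_of_nonneg_right hmem.2 (Nat.cast_nonneg _)
  exact_mod_cast cnt_le_om m _ _ (Nat.succ_ne_zero _) (by omega)

/-- the law -/
theorem law : ∀ᵐ β : ℝ, 0 < β → ∀ b : ℕ, 2 ≤ b →
    Tendsto (fun m : ℕ => (cnt m (⌊β * (b : ℝ) ^ (2 ^ m)⌋₊ + 1) : ℝ) / m) atTop (𝓝 (Real.log 2)) := by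
  have hl2 : 0 < Real.log 2 := Real.log_pos one_lt_two
  have h1 : ∀ᵐ β : ℝ, ∀ M b j : ℕ, 1 ≤ M → 2 ≤ b → β ∈ Set.Ioc (0 : ℝ) M →
      (∃ Q : ℕ, ∀ m ≥ Q, (Real.log 2 * (1 - 1 / ((j : ℝ) + 2))) * m <
        cnt m (⌊β * ((b ^ 2 ^ m : ℕ) : ℝ)⌋₊ + 1)) ∧
      (∃ Q : ℕ, ∀ m ≥ Q, (cnt m (⌊β * ((b ^ 2 ^ m : ℕ) : ℝ)⌋₊ + 1) : ℝ) <
        (Real.log 2 * (1 + 1 / ((j : ℝ) + 2))) * m) := by
    rw [ae_all_iff]; intro M
    rw [ae_all_iff]; intro b
    rw [ae_all_iff]; intro j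
    by_cases hM : 1 ≤ M
    · by_cases hb : 2 ≤ b
      · have hj : 0 < 1 / ((j : ℝ) + 2) := by positivity
        have hj1 : 1 / ((j : ℝ) + 2) < 1 := by
          rw [div_lt_one (by positivity)]
          have : (0 : ℝ) ≤ j := Nat.cast_nonneg j
          linarith
        have hlo := low (c := Real.log 2 * (1 - 1 / ((j : ℝ) + 2))) hb (by nlinarith) (by nlinarith) hM
        have hup := up (c := Real.log 2 * (1 + 1 / ((j : ℝ) + 2))) hb (by nlinarith) hM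
        rw [ae_restrict_iff' measurableSet_Ioc] at hlo hup
        filter_upwards [hlo, hup] with β g1 g2 _ _ g3
        exact ⟨g1 g3, g2 g3⟩
      · exact Eventually.of_forall fun β _ h => absurd h hb
    · exact Eventually.of_forall fun β h => absurd h hM
  filter_upwards [h1] with β hβ h0 b hb
  obtain ⟨M0, hM0⟩ := exists_nat_ge β
  have hmem : β ∈ Set.Ioc (0 : ℝ) ((M0 + 1 : ℕ) : ℝ) := ⟨h0, by push_cast; linarith⟩
  rw [Metric.tendsto_atTop]
  intro ε hε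
  obtain ⟨j, hj⟩ := exists_nat_gt (Real.log 2 / ε)
  obtain ⟨⟨Q1, hQ1⟩, ⟨Q2, hQ2⟩⟩ := hβ (M0 + 1) b j (by omega) hb hmem
  refine ⟨max (max Q1 Q2) 1, fun m hm => ?_⟩
  have hm1 : 1 ≤ m := le_trans (le_max_right _ _) hm
  have g1 := hQ1 m (le_trans ((le_max_left _ _).trans (le_max_left _ _)) hm)
  have g2 := hQ2 m (le_trans ((le_max_right _ _).trans (le_max_left _ _)) hm)
  have hm0 : (0 : ℝ) < m := by exact_mod_cast hm1
  have hcast : β * ((b ^ 2 ^ m : ℕ) : ℝ) = β * (b : ℝ) ^ (2 ^ m) := by push_cast; ring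
  rw [hcast] at g1 g2
  have hj0 : Real.log 2 * (1 / ((j : ℝ) + 2)) < ε := by
    rw [mul_one_div, div_lt_iff₀ (by positivity)]
    rw [div_lt_iff₀ hε] at hj
    nlinarith
  rw [Real.dist_eq, abs_lt]
  constructor
  · have : Real.log 2 * (1 - 1 / ((j : ℝ) + 2)) < (cnt m (⌊β * (b : ℝ) ^ (2 ^ m)⌋₊ + 1) : ℝ) / m := by
      rw [lt_div_iff₀ hm0]; exact g1
    nlinarith
  · have : (cnt m (⌊β * (b : ℝ) ^ (2 ^ m)⌋₊ + 1) : ℝ) / m < Real.log 2 * (1 + 1 / ((j : ℝ) + 2)) := by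
      rw [div_lt_iff₀ hm0]; exact g2
    nlinarith

end Pool.Agent.Helper523_NSW.Fer
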