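import Mathlib
import Pool.Agent.Helper523_NSW.FerD

set_option autoImplicit false

/-!
# Gaussian bounds for the two tails
-/

namespace Pool.Agent.Helper523_NSW.Fer

open Finset Filter Topology MeasureTheory
open Pool.Agent.H500R2 (PP L mem_PP mertens_L)

/-- the exponential moment below one -/
lemma low_core : ∃ C : ℝ, 0 ≤ C ∧ ∀ b M m r : ℕ, 2 ≤ b → 1 ≤ M → 2 ≤ m → 1 ≤ r → r ≤ m - 1 →
    4 * (m : ℝ) + 3 * C ≤ 2 ^ r → 2 * (m : ℝ) + C ≤ 2 ^ (m - 1) * Real.log 2 →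
    m + 1 ≤ 2 ^ (m - 1 - r) → ∀ s : ℝ, 0 ≤ s → s ≤ 1 →
    ∑ n ∈ Icc 1 (M * b ^ 2 ^ m + 1), (1 - s) ^ (om (S (2 ^ (m + 1)) (2 ^ 2 ^ (m - 1 - r))) n) ≤
      ((M * b ^ 2 ^ m + 1 : ℕ) : ℝ) *
        (Real.exp (-(s * (m * Real.log 2 - ((r + 1) * Real.log 2 + Real.log (m + 1) + C)))) +
          7 * Real.exp (-(m : ℝ))) := by
  obtain ⟨C, hC, hσ⟩ := sum_bounds
  refine ⟨C, hC, fun b M m r hb hM hm2 h1 hrm h2 h3 h4 s hs0 hs1 => ?_⟩
  have hl2 : 0 < Real.log 2 := Real.log_pos one_lt_two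
  have hl21 : Real.log 2 ≤ 1 := by linarith [Real.log_two_lt_d9]
  have hm2' : (2 : ℝ) ≤ m := by exact_mod_cast hm2
  set k := m - 1 - r with hk
  have hkr : k + r = m - 1 := by omega
  have hkr' : (k : ℝ) + r = m - 1 := by
    have : ((k + r : ℕ) : ℝ) = ((m - 1 : ℕ) : ℝ) := by rw [hkr]
    rw [Nat.cast_sub (by omega)] at this
    push_cast at this
    linarith
  have hkm : (k : ℝ) ≤ m := by
    have : (0 : ℝ) ≤ r := Nat.cast_nonneg r
    linarith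
  set P := 2 ^ 2 ^ k with hP
  set R := 2 ^ r with hR
  set X := b ^ 2 ^ m with hX
  have hX0 : 0 < X := by positivity
  have hyP : 2 ^ (m + 1) ≤ P := Nat.pow_le_pow_right two_pos h4
  have hPR : P ^ R = 2 ^ 2 ^ (m - 1) := by
    rw [hP, hR, ← pow_mul, ← pow_add, hkr]
  have hXP : 2 ^ 2 ^ (m - 1) * 2 ^ 2 ^ (m - 1) ≤ X := by
    rw [← pow_add, ← two_mul, ← pow_succ', show m - 1 + 1 = m by omega]
    exact Nat.pow_le_pow_left hb _
  set σ := ∑ p ∈ S (2 ^ (m + 1)) P, (1 : ℝ) / p with hσd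
  have hσ0 : 0 ≤ σ := Finset.sum_nonneg fun p _ => by positivity
  have hσ1 := hσ m P (by omega) hyP
  have hlP : Real.log (Real.log ((P : ℕ) : ℝ)) = k * Real.log 2 + Real.log (Real.log 2) := by
    rw [hP]; push_cast
    rw [Real.log_pow]; push_cast
    rw [Real.log_mul (by positivity) hl2.ne', Real.log_pow]
  rw [hlP, ← hσd, abs_le] at hσ1
  have hlm : 0 ≤ Real.log ((m : ℝ) + 1) := Real.log_nonneg (by linarith)
  have hσlo : m * Real.log 2 - ((r + 1) * Real.log 2 + Real.log (m + 1) + C) ≤ σ := by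
    have : (k : ℝ) = m - 1 - r := by linarith
    have h5 := hσ1.1
    rw [this] at h5
    linarith
  have hσhi : σ ≤ m + C := by
    have : (k : ℝ) * Real.log 2 ≤ m * 1 := mul_le_mul hkm hl21 hl2.le (by positivity)
    linarith [hσ1.2]
  have hRe : Even R := by
    rw [hR]
    exact (even_two).pow_of_ne_zero (by omega)
  have hHP : P ^ R ≤ M * X + 1 := by
    rw [hPR]
    have : 1 ≤ 2 ^ 2 ^ (m - 1) := Nat.one_le_two_pow
    nlinarith
  have hmom := low_moment hs0 hs1 (T := S (2 ^ (m + 1)) P) (fun p hp => (mem_S.1 hp).1) hRe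
    (fun p hp => (mem_S.1 hp).2.1) (Nat.one_le_two_pow) 1 (M * X + 1) hHP
  rw [← hσd] at hmom
  have hIco : Ico 1 (1 + (M * X + 1)) = Icc 1 (M * X + 1) := by
    ext n; rw [mem_Ico, mem_Icc]; omega
  rw [hIco] at hmom
  have t1 : Real.exp (-(s * σ)) ≤
      Real.exp (-(s * (m * Real.log 2 - ((r + 1) * Real.log 2 + Real.log (m + 1) + C)))) := by
    refine Real.exp_le_exp.2 ?_
    have := mul_le_mul_of_nonneg_left hσlo hs0
    linarith
  have a2 : s * σ ≤ m + C := by nlinarith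
  have t2 : Real.exp (Real.exp 1 * (s * σ) - ((R : ℝ) + 1)) ≤ Real.exp (-(m : ℝ)) := by
    refine Real.exp_le_exp.2 ?_
    have a1 : Real.exp 1 ≤ 3 := by linarith [Real.exp_one_lt_d9]
    have a3 : Real.exp 1 * (s * σ) ≤ 3 * (m + C) :=
      mul_le_mul a1 a2 (by positivity) (by norm_num)
    have a4 : ((R : ℕ) : ℝ) = 2 ^ r := by rw [hR]; push_cast; ring
    rw [a4]
    linarith
  have t3 : 6 * (((P : ℕ) : ℝ) ^ R / ((M * X + 1 : ℕ) : ℝ)) * Real.exp (s * σ) ≤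
      6 * Real.exp (-(m : ℝ)) := by
    have a1 : ((P : ℕ) : ℝ) ^ R / ((M * X + 1 : ℕ) : ℝ) ≤ 1 / 2 ^ 2 ^ (m - 1) := by
      rw [div_le_div_iff₀ (by positivity) (by positivity)]
      have a2 : P ^ R * 2 ^ 2 ^ (m - 1) ≤ 1 * (M * X + 1) := by
        rw [hPR]; nlinarith
      exact_mod_cast a2
    have a3 : (1 : ℝ) / 2 ^ 2 ^ (m - 1) = Real.exp (-(2 ^ (m - 1) * Real.log 2)) := by
      rw [Real.exp_neg, one_div]
      congr 1
      rw [mul_comm, Real.exp_mul, Real.exp_log two_pos, ← Real.rpow_natCast]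
      congr 1
      push_cast; ring
    rw [mul_assoc]
    refine mul_le_mul_of_nonneg_left ?_ (by norm_num)
    calc ((P : ℕ) : ℝ) ^ R / ((M * X + 1 : ℕ) : ℝ) * Real.exp (s * σ)
        ≤ Real.exp (-(2 ^ (m - 1) * Real.log 2)) * Real.exp (m + C) := by
          refine mul_le_mul (a1.trans a3.le) (Real.exp_le_exp.2 a2) (Real.exp_pos _).le
            (Real.exp_pos _).le
      _ = Real.exp (-(2 ^ (m - 1) * Real.log 2) + (m + C)) := (Real.exp_add _ _).symm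
      _ ≤ Real.exp (-(m : ℝ)) := Real.exp_le_exp.2 (by linarith)
  refine hmom.trans (mul_le_mul_of_nonneg_left ?_ (Nat.cast_nonneg _))
  linarith

lemma neg_log_one_sub {η : ℝ} (h0 : 0 ≤ η) (h1 : η ≤ 1 / 2) : -Real.log (1 - η) ≤ η + 2 * η ^ 2 := by
  have h2 : 0 < 1 - η := by linarith
  have h3 := Real.one_sub_inv_le_log_of_pos h2
  have h4 : (1 - η)⁻¹ ≤ 1 + η + 2 * η ^ 2 := by
    rw [inv_le_iff_one_le_mul₀ h2]
    nlinarith [mul_nonneg h0 h0, mul_nonneg (mul_nonneg h0 h0) (by linarith : 0 ≤ 1 - 2 * η)]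
  linarith

lemma log_one_add_ge {η : ℝ} (h0 : 0 ≤ η) : η - η ^ 2 ≤ Real.log (1 + η) := by
  have h2 : 0 < 1 + η := by linarith
  have h3 := Real.one_sub_inv_le_log_of_pos h2
  have h4 : (1 + η)⁻¹ ≤ 1 - η + η ^ 2 := by
    rw [inv_le_iff_one_le_mul₀ h2]
    nlinarith [mul_nonneg h0 h0, mul_nonneg (mul_nonneg h0 h0) h0]
  linarith

lemma ev_conds (C : ℝ) (hC : 0 ≤ C) : ∀ᶠ m : ℕ in atTop, 64 ≤ m ∧
    4 * (m : ℝ) + 3 * C ≤ 2 ^ ⌊Real.sqrt m / 8⌋₊ ∧ 2 * (m : ℝ) + C ≤ 2 ^ (m - 1) * Real.log 2 ∧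
    m + 1 ≤ 2 ^ (m - 1 - ⌊Real.sqrt m / 8⌋₊) ∧
    (⌊Real.sqrt m / 8⌋₊ + 1) * Real.log 2 + Real.log (m + 1) + C ≤ Real.sqrt m := by
  have hl2 : 0 < Real.log 2 := Real.log_pos one_lt_two
  have hl21 : Real.log 2 ≤ 1 := by linarith [Real.log_two_lt_d9]
  have hsq : Tendsto (fun m : ℕ => Real.sqrt m) atTop atTop :=
    Real.tendsto_sqrt_atTop.comp tendsto_natCast_atTop_atTop
  have ev1 : ∀ᶠ m : ℕ in atTop, 4 * (m : ℝ) + 3 * C ≤ 2 ^ ⌊Real.sqrt m / 8⌋₊ := by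
    have h1 : Tendsto (fun j : ℕ => (j : ℝ) ^ 2 / (2 : ℝ) ^ j) atTop (𝓝 0) :=
      tendsto_pow_const_div_const_pow_of_one_lt 2 one_lt_two
    have h2 : ∀ᶠ j : ℕ in atTop, (j : ℝ) ^ 2 / (2 : ℝ) ^ j < 1 / (1024 + 3 * C) :=
      h1.eventually (gt_mem_nhds (by positivity))
    have h3 : Tendsto (fun m : ℕ => ⌊Real.sqrt m / 8⌋₊) atTop atTop :=
      tendsto_nat_floor_atTop.comp (hsq.atTop_div_const (by norm_num))
    filter_upwards [h3.eventually (h2.and (eventually_ge_atTop 1))] with m hm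
    obtain ⟨g1, g2⟩ := hm
    have g2' : (1 : ℝ) ≤ (⌊Real.sqrt m / 8⌋₊ : ℝ) := by exact_mod_cast g2
    rw [div_lt_div_iff₀ (by positivity) (by positivity), one_mul] at g1
    have g3 : Real.sqrt m ≤ 8 * ((⌊Real.sqrt m / 8⌋₊ : ℝ) + 1) := by
      have := (Nat.lt_floor_add_one (Real.sqrt m / 8)).le
      linarith
    have g4 : Real.sqrt m ≤ 16 * (⌊Real.sqrt m / 8⌋₊ : ℝ) := by linarith
    have g5 : (m : ℝ) ≤ 256 * (⌊Real.sqrt m / 8⌋₊ : ℝ) ^ 2 := by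
      have h0 : (0 : ℝ) ≤ m := Nat.cast_nonneg m
      have := Real.sq_sqrt h0
      have h5 := Real.sqrt_nonneg (m : ℝ)
      nlinarith
    have g6 : (1 : ℝ) ≤ (⌊Real.sqrt m / 8⌋₊ : ℝ) ^ 2 := by nlinarith
    have g7 : C * 1 ≤ C * (⌊Real.sqrt m / 8⌋₊ : ℝ) ^ 2 := mul_le_mul_of_nonneg_left g6 hC
    have g8 : (⌊Real.sqrt m / 8⌋₊ : ℝ) ^ 2 * (1024 + 3 * C) =
      1024 * (⌊Real.sqrt m / 8⌋₊ : ℝ) ^ 2 + 3 * (C * (⌊Real.sqrt m / 8⌋₊ : ℝ) ^ 2) := by ring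
    rw [g8] at g1
    linarith
  have ev3 : ∀ᶠ m : ℕ in atTop, 2 * (m : ℝ) + C ≤ 2 ^ (m - 1) * Real.log 2 := by
    have h1 : Tendsto (fun m : ℕ => (m : ℝ) ^ 1 / (2 : ℝ) ^ m) atTop (𝓝 0) :=
      tendsto_pow_const_div_const_pow_of_one_lt 1 one_lt_two
    have h2 : ∀ᶠ m : ℕ in atTop, (m : ℝ) ^ 1 / (2 : ℝ) ^ m < Real.log 2 / (2 * (2 + C)) :=
      h1.eventually (gt_mem_nhds (by positivity))
    filter_upwards [h2, eventually_ge_atTop 1] with m hm hm1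
    have hm1' : (1 : ℝ) ≤ m := by exact_mod_cast hm1
    obtain ⟨j, rfl⟩ := Nat.exists_eq_add_of_le' hm1
    rw [pow_one, div_lt_div_iff₀ (by positivity) (by positivity), pow_succ] at hm
    rw [Nat.add_sub_cancel]
    nlinarith
  have ev4 : ∀ᶠ m : ℕ in atTop, m + 1 ≤ 2 ^ (m - 1 - ⌊Real.sqrt m / 8⌋₊) := by
    have h1 : Tendsto (fun m : ℕ => (m : ℝ) ^ 1 / (2 ^ (1 / 2 : ℝ) : ℝ) ^ m) atTop (𝓝 0) :=
      tendsto_pow_const_div_const_pow_of_one_lt 1 (Real.one_lt_rpow one_lt_two (by norm_num))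
    have h2 : ∀ᶠ m : ℕ in atTop, (m : ℝ) ^ 1 / (2 ^ (1 / 2 : ℝ) : ℝ) ^ m < 1 / 8 :=
      h1.eventually (gt_mem_nhds (by norm_num))
    filter_upwards [h2, eventually_ge_atTop 2] with m hm hm1
    have hm1' : (2 : ℝ) ≤ m := by exact_mod_cast hm1
    rw [pow_one, div_lt_div_iff₀ (by positivity) (by norm_num), one_mul] at hm
    have h3 : (⌊Real.sqrt m / 8⌋₊ : ℝ) ≤ m / 2 := by
      refine (Nat.floor_le (by positivity)).trans ?_
      have h6 : Real.sqrt m ≤ m := by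
        rw [Real.sqrt_le_left (by linarith)]
        nlinarith
      linarith
    have h4 : ⌊Real.sqrt m / 8⌋₊ ≤ m - 1 := by
      have : (⌊Real.sqrt m / 8⌋₊ : ℝ) ≤ ((m - 1 : ℕ) : ℝ) := by
        rw [Nat.cast_sub (by omega)]; push_cast; linarith
      exact_mod_cast this
    have h5 : (1 / 2 : ℝ) * m ≤ ((m - 1 - ⌊Real.sqrt m / 8⌋₊ : ℕ) : ℝ) + 1 := by
      rw [Nat.cast_sub h4, Nat.cast_sub (by omega)]; push_cast; linarith
    have h6 : (2 : ℝ) ^ ((1 / 2 : ℝ) * m) ≤ 2 ^ (((m - 1 - ⌊Real.sqrt m / 8⌋₊ : ℕ) : ℝ) + 1) :=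
      Real.rpow_le_rpow_of_exponent_le one_le_two h5
    rw [Real.rpow_add two_pos, Real.rpow_one, Real.rpow_natCast, Real.rpow_mul two_pos.le,
      Real.rpow_natCast] at h6
    have h7 : ((m + 1 : ℕ) : ℝ) ≤ ((2 ^ (m - 1 - ⌊Real.sqrt m / 8⌋₊) : ℕ) : ℝ) := by
      push_cast
      nlinarith
    exact_mod_cast h7
  have ev5 : ∀ᶠ m : ℕ in atTop, (⌊Real.sqrt m / 8⌋₊ + 1) * Real.log 2 + Real.log (m + 1) + C ≤
      Real.sqrt m := by
    filter_upwards [hsq.eventually_ge_atTop (32 * (12 + C)), hsq.eventually_ge_atTop 128,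
      eventually_ge_atTop 1] with m h1 h2 hm1
    have hm1' : (1 : ℝ) ≤ m := by exact_mod_cast hm1
    have h0 : (0 : ℝ) ≤ m := Nat.cast_nonneg m
    have hw := Real.sq_sqrt h0
    set w := Real.sqrt m with hwd
    have hw0 : 0 ≤ w := Real.sqrt_nonneg _
    have g1 : (⌊w / 8⌋₊ : ℝ) ≤ w / 8 := Nat.floor_le (by positivity)
    have g2 : ((⌊w / 8⌋₊ : ℝ) + 1) * Real.log 2 ≤ (w / 8 + 1) * 1 :=
      mul_le_mul (by linarith) hl21 hl2.le (by positivity)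
    -- `log (m + 1) ≤ w / 2 + 10`
    have g3 : Real.log (m + 1) ≤ w / 2 + 10 := by
      have e1 : (m : ℝ) + 1 ≤ (w / 4 + 4) ^ 4 := by
        rw [← hw]
        nlinarith [sq_nonneg (w / 4), sq_nonneg (w ^ 2), mul_nonneg hw0 (sq_nonneg w), mul_nonneg hw0 hw0]
      have e2 : Real.log (m + 1) ≤ 4 * Real.log (w / 4 + 4) := by
        have := Real.log_le_log (by linarith) e1
        rw [Real.log_pow] at this
        exact_mod_cast this
      have e3 : Real.log ((w / 4 + 4) / 4) ≤ (w / 4 + 4) / 4 - 1 := Real.log_le_sub_one_of_pos (by positivity)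
      have e4 : Real.log ((w / 4 + 4) / 4) = Real.log (w / 4 + 4) - Real.log 4 :=
        Real.log_div (by positivity) (by norm_num)
      have e5 : Real.log 4 ≤ 2 := by
        rw [show (4 : ℝ) = 2 ^ 2 by norm_num, Real.log_pow]
        push_cast
        linarith
      linarith
    linarith
  filter_upwards [ev1, ev3, ev4, ev5, eventually_ge_atTop 64] with m h1 h2 h3 h4 h5
  exact ⟨h5, h1, h2, h3, h4⟩

end Pool.Agent.Helper523_NSW.Fer
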