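import Mathlib
import Pool.Agent.Helper523_NSW.FerE

set_option autoImplicit false

/-!
# Gaussian bounds for the two tails, in terms of measures
-/

namespace Pool.Agent.Helper523_NSW.Fer

open Finset Filter Topology MeasureTheory
open Pool.Agent.H500R2 (PP L mem_PP mertens_L)

theorem low_tail {b : ℕ} (hb : 2 ≤ b) {M : ℕ} (hM : 1 ≤ M) : ∃ m0 : ℕ, ∀ m ≥ m0, ∀ l : ℝ,
    0 ≤ l → l ≤ Real.sqrt m →
    (volume.restrict (Set.Ioc (0 : ℝ) M)) {β | (cnt m (⌊β * ((b ^ 2 ^ m : ℕ) : ℝ)⌋₊ + 1) : ℝ) ≤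
      m * Real.log 2 - l * Real.sqrt m} ≤
      ENNReal.ofReal (8 * ((M : ℝ) + 1) * Real.exp (l - l ^ 2 / 8)) := by
  classical
  have hl2 : 0 < Real.log 2 := Real.log_pos one_lt_two
  have hl27 : Real.log 2 ≤ 7 / 10 := by linarith [Real.log_two_lt_d9]
  obtain ⟨C, hC, hcore⟩ := low_core
  obtain ⟨m0, hm0⟩ := eventually_atTop.1 (ev_conds C hC)
  refine ⟨m0, fun m hm l hl0 hlw => ?_⟩
  obtain ⟨h64, c2, c3, c4, c5⟩ := hm0 m hm
  have hm64 : (64 : ℝ) ≤ m := by exact_mod_cast h64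
  have h0 : (0 : ℝ) ≤ m := by linarith
  have hw2 := Real.sq_sqrt h0
  set w := Real.sqrt m with hw
  have hw8 : 8 ≤ w := by
    rw [hw]
    exact Real.le_sqrt_of_sq_le (by linarith)
  have hw0 : 0 < w := by linarith
  set r := ⌊w / 8⌋₊ with hr
  have hr1 : 1 ≤ r := by rw [hr, Nat.one_le_floor_iff]; linarith
  have hrm : r ≤ m - 1 := by
    have g1 : (r : ℝ) ≤ w / 8 := Nat.floor_le (by positivity)
    have g2 : w ≤ m := by nlinarith
    have : (r : ℝ) ≤ ((m - 1 : ℕ) : ℝ) := by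
      rw [Nat.cast_sub (by omega)]; push_cast; linarith
    exact_mod_cast this
  set X := b ^ 2 ^ m with hX
  have hX0 : 0 < X := by positivity
  set η := l / (4 * w) with hη
  have hη0 : 0 ≤ η := by positivity
  have hη1 : η ≤ 1 / 4 := by rw [hη, div_le_div_iff₀ (by positivity) (by norm_num)]; linarith
  have hmom := hcore b M m r hb hM (by omega) hr1 hrm c2 c3 c4 η hη0 (by linarith)
  set E := ((r : ℝ) + 1) * Real.log 2 + Real.log (m + 1) + C with hE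
  set a := m * Real.log 2 - l * w with ha
  rw [← hX] at hmom
  -- reduction to the set of primes
  have hsub : {β : ℝ | (cnt m (⌊β * (X : ℝ)⌋₊ + 1) : ℝ) ≤ a} ⊆
      {β : ℝ | (om (S (2 ^ (m + 1)) (2 ^ 2 ^ (m - 1 - r))) (⌊β * (X : ℝ)⌋₊ + 1) : ℝ) ≤ a} := by
    intro β hβ
    have h1 : (om (S (2 ^ (m + 1)) (2 ^ 2 ^ (m - 1 - r))) (⌊β * (X : ℝ)⌋₊ + 1) : ℝ) ≤
        cnt m (⌊β * (X : ℝ)⌋₊ + 1) := by exact_mod_cast om_le_cnt m _ _ (Nat.succ_ne_zero _)
    exact h1.trans hβ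
  refine (measure_mono hsub).trans ?_
  rcases lt_or_ge a 0 with hneg | hpos
  · have : {β : ℝ | (om (S (2 ^ (m + 1)) (2 ^ 2 ^ (m - 1 - r))) (⌊β * (X : ℝ)⌋₊ + 1) : ℝ) ≤ a} = ∅ := by
      ext β
      simp only [Set.mem_setOf_eq, Set.mem_empty_iff_false, iff_false, not_le]
      exact hneg.trans_le (Nat.cast_nonneg _)
    rw [this, measure_empty]
    exact zero_le
  have hz0 : 0 < 1 - η := by linarith
  have hcard := low_card hz0 (by linarith) (S (2 ^ (m + 1)) (2 ^ 2 ^ (m - 1 - r)))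
    (Icc 1 (M * X + 1)) a hmom
  refine vol_bad M X hX0 (fun n => (om (S (2 ^ (m + 1)) (2 ^ 2 ^ (m - 1 - r))) n : ℝ) ≤ a)
    (hcard.trans ?_)
  have hlog := neg_log_one_sub hη0 (by linarith)
  have hzp : (1 - η) ^ (-a) = Real.exp (a * (-Real.log (1 - η))) := by
    rw [Real.rpow_def_of_pos hz0]
    congr 1
    ring
  have haη : a * (-Real.log (1 - η)) ≤ a * (η + 2 * η ^ 2) := mul_le_mul_of_nonneg_left hlog hpos
  have ham : a ≤ m * Real.log 2 := by rw [ha]; nlinarith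
  have hηw : η * w = l / 4 := by rw [hη]; field_simp
  have hlw2 : l ^ 2 ≤ m := by rw [← hw2]; nlinarith
  -- first term
  have e1 : a * (-Real.log (1 - η)) + -(η * (m * Real.log 2 - E)) ≤ l - l ^ 2 / 8 := by
    have g1 : a * (η + 2 * η ^ 2) ≤ a * η + m * Real.log 2 * (2 * η ^ 2) := by nlinarith [sq_nonneg η]
    have g2 : a * η = m * Real.log 2 * η - l * (η * w) := by rw [ha]; ring
    have g3 : (m : ℝ) * η ^ 2 = l ^ 2 / 16 := by
      rw [← hw2]
      calc w ^ 2 * η ^ 2 = (η * w) ^ 2 := by ring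
        _ = _ := by rw [hηw]; ring
    have g4 : m * Real.log 2 * (2 * η ^ 2) ≤ l ^ 2 / 8 := by
      have : m * Real.log 2 * (2 * η ^ 2) = 2 * Real.log 2 * (m * η ^ 2) := by ring
      rw [this, g3]
      nlinarith [sq_nonneg l]
    have g5 : η * E ≤ l := by
      have : η * E ≤ η * w := mul_le_mul_of_nonneg_left c5 hη0
      rw [hηw] at this
      linarith
    rw [hηw] at g2
    have g6 : -(η * (m * Real.log 2 - E)) = -(m * Real.log 2 * η) + η * E := by ring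
    rw [g6]
    nlinarith
  have e2 : a * (-Real.log (1 - η)) + -(m : ℝ) ≤ l - l ^ 2 / 8 := by
    have g1 : η + 2 * η ^ 2 ≤ 1 / 2 := by nlinarith
    have g2 : a * (η + 2 * η ^ 2) ≤ m * (7 / 10) * (1 / 2) := by
      refine mul_le_mul (ham.trans ?_) g1 (by positivity) (by positivity)
      exact mul_le_mul_of_nonneg_left hl27 h0
    nlinarith
  have hMX : ((M * X + 1 : ℕ) : ℝ) ≤ X * ((M : ℝ) + 1) := by
    have : (1 : ℝ) ≤ X := by exact_mod_cast hX0
    push_cast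
    linarith
  have hfin : (1 - η) ^ (-a) * (Real.exp (-(η * (m * Real.log 2 - E))) + 7 * Real.exp (-(m : ℝ))) ≤
      8 * Real.exp (l - l ^ 2 / 8) := by
    rw [hzp, mul_add, ← Real.exp_add, mul_left_comm, ← Real.exp_add]
    have f1 := Real.exp_le_exp.2 e1
    have f2 := Real.exp_le_exp.2 e2
    linarith
  calc (1 - η) ^ (-a) * (((M * X + 1 : ℕ) : ℝ) *
        (Real.exp (-(η * (m * Real.log 2 - E))) + 7 * Real.exp (-(m : ℝ))))
      = ((M * X + 1 : ℕ) : ℝ) * ((1 - η) ^ (-a) *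
        (Real.exp (-(η * (m * Real.log 2 - E))) + 7 * Real.exp (-(m : ℝ)))) := by ring
    _ ≤ (X * ((M : ℝ) + 1)) * (8 * Real.exp (l - l ^ 2 / 8)) :=
        mul_le_mul hMX hfin (by positivity) (by positivity)
    _ = _ := by ring

theorem up_tail {b : ℕ} (hb : 2 ≤ b) {M : ℕ} (hM : 1 ≤ M) : ∃ K : ℝ, 0 ≤ K ∧ ∀ m ≥ (64 : ℕ), ∀ l : ℝ,
    0 ≤ l → l ≤ Real.sqrt m →
    (volume.restrict (Set.Ioc (0 : ℝ) M)) {β | m * Real.log 2 + l * Real.sqrt m ≤
      (cnt m (⌊β * ((b ^ 2 ^ m : ℕ) : ℝ)⌋₊ + 1) : ℝ)} ≤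
      ENNReal.ofReal (K * Real.exp (l - l ^ 2 / 8)) := by
  classical
  have hl2 : 0 < Real.log 2 := Real.log_pos one_lt_two
  have hl27 : Real.log 2 ≤ 7 / 10 := by linarith [Real.log_two_lt_d9]
  obtain ⟨C, hC, hσ⟩ := sum_bounds
  set B : ℝ := ((M : ℝ) + 1) * b with hB
  have hb' : (2 : ℝ) ≤ b := by exact_mod_cast hb
  have hM' : (1 : ℝ) ≤ M := by exact_mod_cast hM
  have hB4 : 4 ≤ B := by rw [hB]; nlinarith
  have hlB : 0 < Real.log B := Real.log_pos (by linarith)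
  set C1 := |Real.log (Real.log B) - Real.log (Real.log 2) + C| with hC1
  have hC10 : 0 ≤ C1 := abs_nonneg _
  refine ⟨((M : ℝ) + 1) * Real.exp C1, by positivity, fun m hm64' l hl0 hlw => ?_⟩
  have hm : 1 ≤ m := by omega
  have hm' : (64 : ℝ) ≤ m := by exact_mod_cast hm64'
  have h0 : (0 : ℝ) ≤ m := by linarith
  have hw2 := Real.sq_sqrt h0
  set w := Real.sqrt m with hw
  have hw8 : 8 ≤ w := by
    rw [hw]
    exact Real.le_sqrt_of_sq_le (by linarith)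
  have hw0 : 0 < w := by linarith
  set X := b ^ 2 ^ m with hX
  have hX0 : 0 < X := by positivity
  have hXr : (1 : ℝ) ≤ X := by exact_mod_cast hX0
  have h2X : 2 ^ 2 ^ m ≤ X := Nat.pow_le_pow_left hb _
  have hyP : 2 ^ (m + 1) ≤ M * X + 1 := by
    have h1 : m + 1 ≤ 2 ^ m := Nat.lt_two_pow_self
    have h2 : 2 ^ (m + 1) ≤ 2 ^ 2 ^ m := Nat.pow_le_pow_right two_pos h1
    nlinarith
  set σ := ∑ p ∈ S (2 ^ (m + 1)) (M * X + 1), (1 : ℝ) / p with hσd
  have hσ1 := hσ m (M * X + 1) hm hyP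
  rw [← hσd, abs_le] at hσ1
  have hlm : 0 ≤ Real.log ((m : ℝ) + 1) := Real.log_nonneg (by linarith)
  have hH4 : (4 : ℝ) ≤ ((M * X + 1 : ℕ) : ℝ) := by
    have h4 : 4 ≤ X := by
      have : 2 ^ 2 ≤ 2 ^ 2 ^ m := Nat.pow_le_pow_right two_pos (by
        calc 2 = 2 ^ 1 := rfl
          _ ≤ 2 ^ m := Nat.pow_le_pow_right two_pos hm)
      omega
    have : 4 ≤ M * X + 1 := by nlinarith
    exact_mod_cast this
  have hlogH : Real.log ((M * X + 1 : ℕ) : ℝ) ≤ 2 ^ m * Real.log B := by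
    have h1 : ((M * X + 1 : ℕ) : ℝ) ≤ B ^ (2 ^ m) := by
      rw [hB, mul_pow]
      have h2 : (M : ℝ) + 1 ≤ ((M : ℝ) + 1) ^ (2 ^ m) :=
        le_self_pow₀ (by linarith) (by positivity)
      have h3 : (X : ℝ) = (b : ℝ) ^ (2 ^ m) := by rw [hX]; push_cast; ring
      rw [← h3]
      push_cast
      nlinarith
    calc Real.log ((M * X + 1 : ℕ) : ℝ) ≤ Real.log (B ^ (2 ^ m)) :=
          Real.log_le_log (by linarith) h1
      _ = _ := by rw [Real.log_pow]; push_cast; ring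
  have hllH : Real.log (Real.log ((M * X + 1 : ℕ) : ℝ)) ≤ m * Real.log 2 + Real.log (Real.log B) := by
    have h1 : 0 < Real.log ((M * X + 1 : ℕ) : ℝ) := Real.log_pos (by linarith)
    calc Real.log (Real.log ((M * X + 1 : ℕ) : ℝ)) ≤ Real.log (2 ^ m * Real.log B) :=
          Real.log_le_log h1 hlogH
      _ = _ := by rw [Real.log_mul (by positivity) hlB.ne', Real.log_pow]
  have hσhi : σ ≤ m * Real.log 2 + C1 := by
    have := le_abs_self (Real.log (Real.log B) - Real.log (Real.log 2) + C)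
    rw [← hC1] at this
    linarith [hσ1.2]
  set η := l / (4 * w) with hη
  have hη0 : 0 ≤ η := by positivity
  have hη1 : η ≤ 1 / 4 := by rw [hη, div_le_div_iff₀ (by positivity) (by norm_num)]; linarith
  have hηw : η * w = l / 4 := by rw [hη]; field_simp
  set a := m * Real.log 2 + l * w with ha
  have ha0 : 0 ≤ a := by positivity
  have hmom := up_moment hη0 (T := S (2 ^ (m + 1)) (M * X + 1)) (fun p hp => (mem_S.1 hp).1)
    (M * X + 1)
  rw [← hσd] at hmom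
  have hcard := up_card (by linarith : 1 ≤ 1 + η) (S (2 ^ (m + 1)) (M * X + 1)) (Icc 1 (M * X + 1)) a
    (hmom.trans (mul_le_mul_of_nonneg_left
      (Real.exp_le_exp.2 (mul_le_mul_of_nonneg_left hσhi hη0)) (Nat.cast_nonneg _)))
  -- reduction to the set of primes
  have hsub : {β : ℝ | a ≤ (cnt m (⌊β * (X : ℝ)⌋₊ + 1) : ℝ)} ∩ Set.Ioc (0 : ℝ) M ⊆
      {β : ℝ | a ≤ (om (S (2 ^ (m + 1)) (M * X + 1)) (⌊β * (X : ℝ)⌋₊ + 1) : ℝ)} ∩ Set.Ioc (0 : ℝ) M := by
    rintro β ⟨hβ, hmem⟩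
    refine ⟨?_, hmem⟩
    have h2 : ⌊β * (X : ℝ)⌋₊ ≤ M * X := by
      refine Nat.floor_le_of_le ?_
      rw [Nat.cast_mul]
      exact mul_le_mul_of_nonneg_right hmem.2 (Nat.cast_nonneg _)
    have h1 : (cnt m (⌊β * (X : ℝ)⌋₊ + 1) : ℝ) ≤
        om (S (2 ^ (m + 1)) (M * X + 1)) (⌊β * (X : ℝ)⌋₊ + 1) := by
      exact_mod_cast cnt_le_om m _ _ (Nat.succ_ne_zero _) (by omega)
    exact le_trans hβ h1
  rw [Measure.restrict_apply' measurableSet_Ioc]
  refine (measure_mono hsub).trans ?_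
  rw [← Measure.restrict_apply' measurableSet_Ioc]
  refine vol_bad M X hX0 (fun n => a ≤ (om (S (2 ^ (m + 1)) (M * X + 1)) n : ℝ)) (hcard.trans ?_)
  have hlog := log_one_add_ge hη0
  have hzp : (1 + η) ^ (-a) = Real.exp (-(a * Real.log (1 + η))) := by
    rw [Real.rpow_def_of_pos (by linarith)]
    congr 1
    ring
  have haη : a * (η - η ^ 2) ≤ a * Real.log (1 + η) := mul_le_mul_of_nonneg_left hlog ha0
  have hlw2 : l ^ 2 ≤ m := by rw [← hw2]; nlinarith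
  have e1 : -(a * Real.log (1 + η)) + η * (m * Real.log 2 + C1) ≤ C1 + (l - l ^ 2 / 8) := by
    have g2 : a * η = m * Real.log 2 * η + l * (η * w) := by rw [ha]; ring
    have g3 : (m : ℝ) * η ^ 2 = l ^ 2 / 16 := by
      rw [← hw2]
      calc w ^ 2 * η ^ 2 = (η * w) ^ 2 := by ring
        _ = _ := by rw [hηw]; ring
    have g7 : a ≤ 2 * m := by
      have : l * w ≤ w * w := mul_le_mul_of_nonneg_right hlw hw0.le
      have h3 : (m : ℝ) * Real.log 2 ≤ m * (7 / 10) := mul_le_mul_of_nonneg_left hl27 h0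
      rw [ha]
      nlinarith
    have g4 : a * η ^ 2 ≤ l ^ 2 / 8 := by
      have : a * η ^ 2 ≤ 2 * m * η ^ 2 := mul_le_mul_of_nonneg_right g7 (sq_nonneg _)
      nlinarith
    have g5 : η * C1 ≤ C1 := by nlinarith
    rw [hηw] at g2
    nlinarith
  have hMX : ((M * X + 1 : ℕ) : ℝ) ≤ X * ((M : ℝ) + 1) := by
    push_cast
    linarith
  have hfin : (1 + η) ^ (-a) * Real.exp (η * (m * Real.log 2 + C1)) ≤
      Real.exp C1 * Real.exp (l - l ^ 2 / 8) := by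
    rw [hzp, ← Real.exp_add, ← Real.exp_add]
    exact Real.exp_le_exp.2 e1
  calc (1 + η) ^ (-a) * (((M * X + 1 : ℕ) : ℝ) * Real.exp (η * (m * Real.log 2 + C1)))
      = ((M * X + 1 : ℕ) : ℝ) * ((1 + η) ^ (-a) * Real.exp (η * (m * Real.log 2 + C1))) := by ring
    _ ≤ (X * ((M : ℝ) + 1)) * (Real.exp C1 * Real.exp (l - l ^ 2 / 8)) :=
        mul_le_mul hMX hfin (by positivity) (by positivity)
    _ = _ := by ring

end Pool.Agent.Helper523_NSW.Fer
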