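import Mathlib
import Pool.Agent.Helper523_NSW.FerF

set_option autoImplicit false

/-!
# The law along a sequence of indices, with error term
-/

namespace Pool.Agent.Helper523_NSW.Fer

open Finset Filter Topology MeasureTheory

lemma summable_l : Summable (fun j : ℕ =>
    Real.exp (8 * Real.sqrt (Real.log (j + 1)) - (8 * Real.sqrt (Real.log (j + 1))) ^ 2 / 8)) := by
  have h1 : Summable (fun j : ℕ => Real.exp 4 * (1 / ((j + 1 : ℕ) : ℝ) ^ 2)) :=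
    ((summable_nat_add_iff 1).2 (Real.summable_one_div_nat_pow.2 (by norm_num : 1 < 2))).mul_left _
  refine Summable.of_nonneg_of_le (fun j => (Real.exp_pos _).le) (fun j => ?_) h1
  have hj : (1 : ℝ) ≤ (j : ℝ) + 1 := by
    have : (0 : ℝ) ≤ j := Nat.cast_nonneg j
    linarith
  have hL : 0 ≤ Real.log ((j : ℝ) + 1) := Real.log_nonneg hj
  have hs := Real.sq_sqrt hL
  set s := Real.sqrt (Real.log ((j : ℝ) + 1)) with hsd
  have h2 : 8 * s - (8 * s) ^ 2 / 8 ≤ 4 + -(2 * Real.log ((j : ℝ) + 1)) := by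
    rw [← hs]
    nlinarith [sq_nonneg (s - 1), sq_nonneg s]
  refine (Real.exp_le_exp.2 h2).trans (le_of_eq ?_)
  have e1 : Real.exp (-(2 * Real.log ((j : ℝ) + 1))) = 1 / ((j + 1 : ℕ) : ℝ) ^ 2 := by
    rw [Real.exp_neg, two_mul, Real.exp_add, Real.exp_log (by linarith)]
    push_cast
    rw [one_div]
    congr 1
    ring
  rw [Real.exp_add, e1]

lemma l_le : ∀ j : ℕ, 20000 ≤ j → 8 * Real.sqrt (Real.log (j + 1)) ≤ Real.sqrt j := by
  intro j hj
  have hj' : (20000 : ℝ) ≤ j := by exact_mod_cast hj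
  have h1 : 64 * Real.log ((j : ℝ) + 1) ≤ j := by
    have h0 : (0 : ℝ) < (j : ℝ) + 1 := by linarith
    have h2 : Real.log (Real.sqrt ((j : ℝ) + 1)) ≤ Real.sqrt ((j : ℝ) + 1) - 1 :=
      Real.log_le_sub_one_of_pos (Real.sqrt_pos.2 h0)
    rw [Real.log_sqrt h0.le] at h2
    have h3 : Real.sqrt ((j : ℝ) + 1) ≤ j / 128 := by
      rw [Real.sqrt_le_left (by linarith)]
      nlinarith
    linarith
  rw [show (8 : ℝ) * Real.sqrt (Real.log (j + 1)) = Real.sqrt (64 * Real.log (j + 1)) by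
    rw [Real.sqrt_mul (by norm_num), show (64 : ℝ) = 8 ^ 2 by norm_num,
      Real.sqrt_sq (by norm_num)]]
  exact Real.sqrt_le_sqrt h1

theorem seq_law (f : ℕ → ℕ) (hf : ∀ j, j ≤ f j) : ∀ᵐ β : ℝ, 0 < β → ∀ b : ℕ, 2 ≤ b →
    ∀ᶠ j : ℕ in atTop, |(cnt (f j) (⌊β * (b : ℝ) ^ (2 ^ f j)⌋₊ + 1) : ℝ) - f j * Real.log 2| ≤
      8 * Real.sqrt (Real.log (j + 1)) * Real.sqrt (f j) := by
  have h1 : ∀ᵐ β : ℝ, ∀ M b : ℕ, 1 ≤ M → 2 ≤ b → β ∈ Set.Ioc (0 : ℝ) M →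
      (∃ Q : ℕ, ∀ j ≥ Q, ¬ ((cnt (f j) (⌊β * ((b ^ 2 ^ f j : ℕ) : ℝ)⌋₊ + 1) : ℝ) ≤
        f j * Real.log 2 - 8 * Real.sqrt (Real.log (j + 1)) * Real.sqrt (f j))) ∧
      (∃ Q : ℕ, ∀ j ≥ Q, ¬ (f j * Real.log 2 + 8 * Real.sqrt (Real.log (j + 1)) * Real.sqrt (f j) ≤
        (cnt (f j) (⌊β * ((b ^ 2 ^ f j : ℕ) : ℝ)⌋₊ + 1) : ℝ))) := by
    rw [ae_all_iff]; intro M
    rw [ae_all_iff]; intro b
    by_cases hM : 1 ≤ M
    · by_cases hb : 2 ≤ b
      · obtain ⟨m0, hlow⟩ := low_tail hb hM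
        obtain ⟨K, hK, hup⟩ := up_tail hb hM
        have hl : ∀ j : ℕ, 20000 ≤ j → 8 * Real.sqrt (Real.log (j + 1)) ≤ Real.sqrt (f j) := fun j hj =>
          (l_le j hj).trans (Real.sqrt_le_sqrt (by exact_mod_cast hf j))
        have a1 := bc (μ := volume.restrict (Set.Ioc (0 : ℝ) M)) summable_l
          (fun j => (Real.exp_pos _).le) (by positivity : 0 ≤ 8 * ((M : ℝ) + 1)) (P := max m0 20000)
          (s := fun j => {β : ℝ | (cnt (f j) (⌊β * ((b ^ 2 ^ f j : ℕ) : ℝ)⌋₊ + 1) : ℝ) ≤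
            f j * Real.log 2 - 8 * Real.sqrt (Real.log (j + 1)) * Real.sqrt (f j)})
          (fun j hj => hlow (f j) ((le_trans (le_max_left _ _) hj).trans (hf j)) _ (by positivity)
            (hl j (le_trans (le_max_right _ _) hj)))
        have a2 := bc (μ := volume.restrict (Set.Ioc (0 : ℝ) M)) summable_l
          (fun j => (Real.exp_pos _).le) hK (P := 20000)
          (s := fun j => {β : ℝ | f j * Real.log 2 + 8 * Real.sqrt (Real.log (j + 1)) * Real.sqrt (f j) ≤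
            (cnt (f j) (⌊β * ((b ^ 2 ^ f j : ℕ) : ℝ)⌋₊ + 1) : ℝ)})
          (fun j hj => hup (f j) ((show 64 ≤ j by omega).trans (hf j)) _ (by positivity) (hl j hj))
        rw [ae_restrict_iff' measurableSet_Ioc] at a1 a2
        filter_upwards [a1, a2] with β g1 g2 _ _ g3
        exact ⟨g1 g3, g2 g3⟩
      · exact Eventually.of_forall fun β _ h => absurd h hb
    · exact Eventually.of_forall fun β h => absurd h hM
  filter_upwards [h1] with β hβ h0 b hb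
  obtain ⟨M0, hM0⟩ := exists_nat_ge β
  have hmem : β ∈ Set.Ioc (0 : ℝ) ((M0 + 1 : ℕ) : ℝ) := ⟨h0, by push_cast; linarith⟩
  obtain ⟨⟨Q1, hQ1⟩, ⟨Q2, hQ2⟩⟩ := hβ (M0 + 1) b (by omega) hb hmem
  filter_upwards [eventually_ge_atTop (max Q1 Q2)] with j hj
  have g1 := hQ1 j (le_trans (le_max_left _ _) hj)
  have g2 := hQ2 j (le_trans (le_max_right _ _) hj)
  have hcast : β * ((b ^ 2 ^ f j : ℕ) : ℝ) = β * (b : ℝ) ^ (2 ^ f j) := by push_cast; ring
  rw [hcast] at g1 g2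
  rw [not_le] at g1 g2
  rw [abs_le]
  constructor <;> linarith

end Pool.Agent.Helper523_NSW.Fer
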